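import Pool.Agent.Helper96.TS.Kmain

/-!
# The products of `k` elements of a cube with many non-integral steps
-/

set_option autoImplicit false

namespace Pool.Agent.Helper96.TS

open Finset Pool.Agent.Y359.PE Q137.Shifts Pool.Agent.Helper96.Rat
open scoped Pointwise

/-- **Products of `k` elements of cubes with many non-integral steps.** -/
theorem bigk (ε : ℝ) (hε : 0 < ε) (hε1 : ε ≤ 1) (k : ℕ) (hk : 1 ≤ k) :
    ∃ n0 : ℕ, ∀ M : ℕ, M ≠ 0 → ∃ c : ℝ, 0 < c ∧
    ∀ (K : ℕ) (g : ℕ → ℚ) (R : Finset ℕ), (∀ i ∈ R, 2 ≤ i) → (∀ i ∈ R, (g i).den = i) →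
      (R : Set ℕ).Pairwise Nat.Coprime →
      (∀ p : ℕ, p.Prime →
        (R.filter fun i => (p : ℤ) ^ (M.factorization p + 1) ∣ (g i).num).card ≤ K) →
      n0 + K ≤ R.card → ∀ X : Finset ℤ, X.Nonempty →
      c * ((X.card : ℝ) * 2 ^ R.card) ^ ((k : ℝ) * (1 - ε)) ≤
        (((((X ×ˢ R.powerset).image (zz g)).erase 0) ^ k).card : ℝ) := by
  classical
  have hk0 : (1 : ℝ) ≤ k := by exact_mod_cast hk
  have hl2 : 0 < Real.log 2 := Real.log_pos (by norm_num)
  have hl2' : (0.6931471803 : ℝ) < Real.log 2 := Real.log_two_gt_d9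
  set θ := Real.exp (-(32 * k / ε)) with hθd
  have hθ : 0 < θ := Real.exp_pos _
  have hlogθ : Real.log (1 / θ) = 32 * k / ε := by
    rw [one_div, Real.log_inv, hθd, Real.log_exp, neg_neg]
  have h32 : 32 ≤ 32 * k / ε := by
    rw [le_div_iff₀ hε]
    nlinarith
  have hθ1 : θ ≤ 1 / 9 := by
    have h3 : Real.log 9 ≤ 32 * k / ε := by
      have := Real.log_le_sub_one_of_pos (show (0 : ℝ) < 9 by norm_num)
      linarith
    rw [← hlogθ, Real.log_le_log_iff (by norm_num) (by positivity), le_div_iff₀ hθ] at h3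
    linarith
  set t := ε / (24 * (k + 1)) with htd
  have ht0 : 0 < t := by positivity
  have ht1 : t ≤ 1 := by
    rw [htd, div_le_one (by positivity)]
    nlinarith
  set τ := min (θ * ε / (8 * k)) (t ^ 2 / k) with hτd
  have hτ0 : 0 < τ := lt_min (by positivity) (by positivity)
  have hτ1 : τ ≤ θ * ε / (8 * k) := min_le_left _ _
  have hτ2 : k * τ ≤ t ^ 2 := by
    have : τ ≤ t ^ 2 / k := min_le_right _ _
    rw [le_div_iff₀ (by positivity)] at this
    linarith
  have hκ1 : 4 / Real.log (1 / θ) = ε / (8 * k) := by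
    rw [hlogθ]
    field_simp
    norm_num
  have hκ2 : τ / θ ≤ ε / (8 * k) := by
    rw [div_le_iff₀ hθ]
    have e1 : θ * ε / (8 * k) = ε / (8 * k) * θ := by ring
    linarith
  have hκ : k * (4 / Real.log (1 / θ) + τ / θ) ≤ ε / 4 := by
    rw [hκ1]
    have h3 : (k : ℝ) * (ε / (8 * k) + τ / θ) ≤ k * (ε / (8 * k) + ε / (8 * k)) :=
      mul_le_mul_of_nonneg_left (by linarith) (by linarith)
    have h4 : (k : ℝ) * (ε / (8 * k) + ε / (8 * k)) = ε / 4 := by
      field_simp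
      norm_num
    linarith
  have hκ0 : 0 ≤ 4 / Real.log (1 / θ) + τ / θ := by
    rw [hκ1]
    positivity
  have hκ3 : 4 / Real.log (1 / θ) + τ / θ ≤ 1 := by
    nlinarith
  obtain ⟨n0, m0, hm0, HU⟩ := unpop (τ / 2) (by positivity)
  obtain ⟨n1, C0, hC0, HF⟩ := family (ε / 4 * Real.log 2) (by positivity)
  refine ⟨n0 + n1 + 2, fun M hM => ?_⟩
  set m1 := m0 * M with hm1
  set Q := 1 * Pool.Agent.Helper96.Shf.smo m1 with hQd
  have hQ : Q ≠ 0 := by
    rw [hQd, one_mul]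
    exact Pool.Agent.Helper96.Shf.smo_ne _
  set L := Real.log (2 * Q.divisors.card) with hL
  set C := k * (C0 + Real.log 2) + 2 * k * L + (k + 1) * (m1 * Real.log 2) with hC
  refine ⟨Real.exp (-C), Real.exp_pos _, ?_⟩
  intro K g R h2 hg hR hK hc X hX
  set r := R.card with hr
  obtain ⟨𝒯, h𝒯, h𝒯c, h𝒯F⟩ := HF R h2 hR (by omega)
  rw [← hr] at h𝒯c
  set A := (X ×ˢ 𝒯).filter fun w => zz g w ≠ 0 with hA
  have hXc : (1 : ℝ) ≤ X.card := by exact_mod_cast card_pos.2 hX
  have h2r : (4 : ℝ) ≤ 2 ^ r := by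
    calc (4 : ℝ) = 2 ^ 2 := by norm_num
      _ ≤ 2 ^ r := pow_le_pow_right₀ (by norm_num) (by omega)
  have hAc : (X.card : ℝ) * 2 ^ r ≤ 2 * A.card := by
    have h3 : ((X ×ˢ 𝒯).filter fun w => ¬ zz g w ≠ 0).card ≤ 1 := by
      rw [card_le_one]
      intro a ha b hb
      rw [mem_filter, mem_product, not_not] at ha hb
      exact zz_inj h2 hg hR (mem_powerset.1 (h𝒯 ha.1.2)) (mem_powerset.1 (h𝒯 hb.1.2))
        (ha.2.trans hb.2.symm)
    have h4 : A.card + ((X ×ˢ 𝒯).filter fun w => ¬ zz g w ≠ 0).card = (X ×ˢ 𝒯).card := by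
      rw [hA]
      convert card_filter_add_card_filter_not (s := X ×ˢ 𝒯) (fun w => zz g w ≠ 0)
    have h5 : ((X ×ˢ 𝒯).card : ℝ) ≤ A.card + 1 := by
      have : (X ×ˢ 𝒯).card ≤ A.card + 1 := by omega
      exact_mod_cast this
    rw [card_product] at h5
    push_cast at h5
    have h6 : (X.card : ℝ) * (3 / 4 * 2 ^ r) ≤ X.card * 𝒯.card :=
      mul_le_mul_of_nonneg_left h𝒯c (by linarith)
    nlinarith
  have hA0 : (0 : ℝ) < A.card := by
    have : (0 : ℝ) < X.card * 2 ^ r := by positivity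
    linarith
  have hAn : A.Nonempty := by
    rw [← card_pos]
    exact_mod_cast hA0
  have hA𝒯 : ∀ a ∈ A, a.2 ∈ 𝒯 := fun a ha => (mem_product.1 (mem_filter.1 ha).1).2
  have hAR : ∀ a ∈ A, a.2 ⊆ R ∧ zz g a ≠ 0 := fun a ha =>
    ⟨mem_powerset.1 (h𝒯 (hA𝒯 a ha)), (mem_filter.1 ha).2⟩
  have hAp : ∀ p : ℕ, p.Prime → ∀ j : ℕ, 1 ≤ j → m1 ≤ p ^ j →
      ((A.filter fun a => (p : ℤ) ^ j ∣ (zz g a).num).card : ℝ) ≤ τ * A.card := by
    intro p hp j hj1 hj
    have h3 := cnt_prod X R.powerset (fun w => (p : ℤ) ^ j ∣ (zz g w).num)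
      (δ := τ / 2 * 2 ^ r) fun x _ => HU g R M K hM hK (by omega) x p hp j hj1 hj
    have h5 : ((A.filter fun a => (p : ℤ) ^ j ∣ (zz g a).num).card : ℝ) ≤
        ((X ×ˢ R.powerset).filter fun a => (p : ℤ) ^ j ∣ (zz g a).num).card := by
      rw [Nat.cast_le]
      refine card_le_card (filter_subset_filter _ ?_)
      exact (filter_subset _ _).trans (product_subset_product_right h𝒯)
    nlinarith
  have hlow := K_low h2 hg hR A hAn hAR k ht0.le ht1 hτ2 m1 (by
    intro p hp hpm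
    have := hAp p hp 1 le_rfl (by rwa [pow_one])
    simpa using this)
  have hent := ent_pr hQ A hAn (fun a => (zz g a).num)
    (fun a ha => _root_.Rat.num_ne_zero.2 (hAR a ha).2) hτ0.le hθ hθ1 hκ3 (by
      intro p hp
      refine le_trans ?_ (hAp p hp (Q.factorization p + 1) (by omega) (by
        have := Pool.Agent.Helper96.Shf.level (m := m1) one_ne_zero hp
        rwa [Nat.factorization_one, Finsupp.coe_zero, Pi.zero_apply, pow_zero, mul_one] at this))
      rw [Nat.cast_le]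
      refine card_le_card fun a ha => ?_
      rw [mem_filter] at ha ⊢
      exact ⟨ha.1, pow_dvd_of_lt hp ha.2⟩) k
  have hnum := num_low h2 hg hR (D := ε / 4 * Real.log 2 * r + C0) (by positivity) h𝒯
    (by intro C hC' hC''; exact h𝒯F C hC' hC'') A hAn hA𝒯
  set H := h A (fun a => (zz g a).num) with hH
  set ω := Real.log ((X.card : ℝ) * 2 ^ r) with hω
  have hLA : ω - Real.log 2 ≤ Real.log A.card := by
    have := Real.log_le_log (by positivity) hAc
    rw [Real.log_mul (by norm_num) hA0.ne'] at this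
    linarith
  have hrω : r * Real.log 2 ≤ ω := by
    rw [hω, ← Real.log_pow]
    exact Real.log_le_log (by positivity) (by nlinarith)
  have hω0 : 0 ≤ ω := le_trans (by positivity) hrω
  set κ := 4 / Real.log (1 / θ) + τ / θ with hκd
  have hH1 : ω - ε / 4 * ω - (C0 + Real.log 2) ≤ H := by
    have : ε / 4 * (r * Real.log 2) ≤ ε / 4 * ω := mul_le_mul_of_nonneg_left hrω (by positivity)
    linarith
  have hkκ : 0 ≤ 1 - k * κ := by linarith
  have hH2 : k * ((1 - ε / 2) * ω) - k * (C0 + Real.log 2) ≤ k * (1 - k * κ) * H := by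
    have e1 : (1 - k * κ) * (ω - ε / 4 * ω - (C0 + Real.log 2)) ≤ (1 - k * κ) * H :=
      mul_le_mul_of_nonneg_left hH1 hkκ
    have e2 : k * κ * ω ≤ ε / 4 * ω := mul_le_mul_of_nonneg_right hκ hω0
    have e3 : 0 ≤ k * κ * (ε / 4 * ω) := by positivity
    have e4 : 0 ≤ k * κ * (C0 + Real.log 2) := by positivity
    have e5 : (1 - ε / 2) * ω - (C0 + Real.log 2) ≤ (1 - k * κ) * H := by linarith
    have e6 := mul_le_mul_of_nonneg_left e5 (by linarith : (0 : ℝ) ≤ k)
    linarith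
  have ht2 : (k + 1) * ((r : ℝ) * (3 * t)) ≤ k * (ε / 4 * ω) := by
    have e1 : (k + 1) * ((r : ℝ) * (3 * t)) = ε / 8 * r := by
      rw [htd]
      field_simp
      ring
    rw [e1]
    have e2 : ε / 8 * r ≤ ε / 4 * (r * Real.log 2) := by
      have : (0 : ℝ) ≤ ε * r := by positivity
      nlinarith
    have e3 : ε / 4 * (r * Real.log 2) ≤ ε / 4 * ω := mul_le_mul_of_nonneg_left hrω (by positivity)
    have e4 : ε / 4 * ω ≤ k * (ε / 4 * ω) := by
      have : 0 ≤ ε / 4 * ω := by positivity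
      nlinarith
    linarith
  have hfin : k * (1 - ε) * ω - C ≤ Real.log (((A.image (zz g)) ^ k).card) := by
    have e1 : 0 ≤ k * (ε / 4 * ω) := by positivity
    rw [hC]
    linarith
  have hsub : (((A.image (zz g)) ^ k).card : ℝ) ≤
      (((((X ×ˢ R.powerset).image (zz g)).erase 0) ^ k).card : ℝ) := by
    rw [Nat.cast_le]
    refine card_le_card (pow_subset_pow_left ?_)
    intro z hz
    obtain ⟨a, ha, rfl⟩ := mem_image.1 hz
    refine mem_erase.2 ⟨(hAR a ha).2, mem_image_of_mem _ ?_⟩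
    exact mem_product.2 ⟨(mem_product.1 (mem_filter.1 ha).1).1, mem_powerset.2 (hAR a ha).1⟩
  refine le_trans ?_ hsub
  have hZ0 : (0 : ℝ) < ((A.image (zz g)) ^ k).card := by
    exact_mod_cast card_pos.2 ((hAn.image _).pow)
  have hpos : 0 < (X.card : ℝ) * 2 ^ r := by positivity
  rw [Real.rpow_def_of_pos hpos, ← Real.exp_add, ← Real.exp_log hZ0]
  refine Real.exp_le_exp.2 ?_
  rw [← hω]
  linarith

end Pool.Agent.Helper96.TS
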