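import Pool.Agent.Helper96.TS.Typ

/-!
# Families of compatible sets
-/

set_option autoImplicit false

namespace Pool.Agent.Helper96.TS

open Finset

/-- the sets `T`, `V` can belong to fractions with the same numerator -/
def Compat (T V : Finset ℕ) : Prop :=
  ((∏ i ∈ T ∩ V, i : ℕ) : ℤ) ∣ ((∏ i ∈ T \ V, i : ℕ) : ℤ) - ((∏ i ∈ V \ T, i : ℕ) : ℤ)

lemma log_prod {R : Finset ℕ} (h2 : ∀ i ∈ R, 2 ≤ i) {S : Finset ℕ} (hS : S ⊆ R) :
    Real.log ((∏ i ∈ S, i : ℕ) : ℝ) = ∑ i ∈ S, Real.log i := by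
  push_cast
  rw [Real.log_prod]
  intro i hi
  have := h2 i (hS hi)
  have : 0 < i := by omega
  exact_mod_cast this.ne'

lemma prod_ne {R : Finset ℕ} (h2 : ∀ i ∈ R, 2 ≤ i) (hR : (R : Set ℕ).Pairwise Nat.Coprime)
    {T V : Finset ℕ} (hT : T ⊆ R) (hV : V ⊆ R) (hne : T ≠ V) :
    ∏ i ∈ T \ V, i ≠ ∏ i ∈ V \ T, i := by
  have key : ∀ {T V : Finset ℕ}, T ⊆ R → V ⊆ R → ∏ i ∈ T \ V, i = ∏ i ∈ V \ T, i → T ⊆ V := by
    intro T V hT hV h i hi
    by_contra hiV
    have h1 : i ∣ ∏ j ∈ V \ T, j := h ▸ dvd_prod_of_mem (fun j => j) (mem_sdiff.2 ⟨hi, hiV⟩)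
    have h3 : Nat.Coprime i (∏ j ∈ V \ T, j) := by
      refine Nat.Coprime.prod_right fun j hj => hR (hT hi) (hV (mem_sdiff.1 hj).1) ?_
      rintro rfl
      exact (mem_sdiff.1 hj).2 hi
    have := Nat.Coprime.eq_one_of_dvd h3 h1
    have := h2 i (hT hi)
    omega
  intro h
  exact hne (Subset.antisymm (key hT hV h) (key hV hT h.symm))

lemma compat_log {R : Finset ℕ} (h2 : ∀ i ∈ R, 2 ≤ i) (hR : (R : Set ℕ).Pairwise Nat.Coprime)
    {T V : Finset ℕ} (hT : T ⊆ R) (hV : V ⊆ R) (hne : T ≠ V) (hc : Compat T V) :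
    ∑ i ∈ T ∩ V, Real.log i ≤ max (∑ i ∈ T \ V, Real.log i) (∑ i ∈ V \ T, Real.log i) := by
  have h1 := prod_ne h2 hR hT hV hne
  have pos : ∀ S ⊆ R, 0 < ∏ i ∈ S, i := fun S hS => prod_pos fun i hi => by
    have := h2 i (hS hi); omega
  have pa := pos _ (sdiff_subset.trans hT : T \ V ⊆ R)
  have pb := pos _ (sdiff_subset.trans hV : V \ T ⊆ R)
  have pc := pos _ (inter_subset_left.trans hT : T ∩ V ⊆ R)
  rw [← log_prod h2 (sdiff_subset.trans hT : T \ V ⊆ R),
    ← log_prod h2 (sdiff_subset.trans hV : V \ T ⊆ R),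
    ← log_prod h2 (inter_subset_left.trans hT : T ∩ V ⊆ R)]
  unfold Compat at hc
  set a := ∏ i ∈ T \ V, i
  set b := ∏ i ∈ V \ T, i
  set c := ∏ i ∈ T ∩ V, i
  have h4 := Int.natAbs_dvd_natAbs.2 hc
  rw [Int.natAbs_natCast] at h4
  have h5 := Nat.le_of_dvd (by omega) h4
  rcases le_total a b with hab | hab
  · refine le_max_of_le_right ?_
    refine Real.log_le_log (by exact_mod_cast pc) ?_
    have : c ≤ b := by omega
    exact_mod_cast this
  · refine le_max_of_le_left ?_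
    refine Real.log_le_log (by exact_mod_cast pc) ?_
    have : c ≤ a := by omega
    exact_mod_cast this

/-- the inner product of two compatible typical sets with the same top is negative -/
lemma neg_inner {R P T V : Finset ℕ} {w : ℕ → ℝ} {ws l1 l2 : ℝ} (hP : P ⊆ R) (hT : T ⊆ R)
    (hV : V ⊆ R) (hws : 0 ≤ ws) (hwP : ∀ j ∈ P, ws ≤ w j) (hTV : T ∩ P = V ∩ P)
    (hc : ∑ i ∈ T ∩ V, w i ≤ max (∑ i ∈ T \ V, w i) (∑ i ∈ V \ T, w i))
    (h1 : |∑ i ∈ P, (1 : ℝ) * sg T i| ≤ l1) (h2 : |∑ i ∈ R \ P, w i * sg T i| ≤ l2)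
    (h2' : |∑ i ∈ R \ P, w i * sg V i| ≤ l2) :
    ∑ i ∈ R \ P, w i * (sg T i * sg V i) ≤ l2 - ws * (P.card - l1) := by
  set S := R \ P with hS
  have hsub : T \ V ⊆ S := by
    intro i hi
    rw [mem_sdiff] at hi
    rw [hS, mem_sdiff]
    refine ⟨hT hi.1, fun hiP => hi.2 ?_⟩
    have : i ∈ V ∩ P := hTV ▸ mem_inter.2 ⟨hi.1, hiP⟩
    exact (mem_inter.1 this).1
  have hsub' : V \ T ⊆ S := by
    intro i hi
    rw [mem_sdiff] at hi
    rw [hS, mem_sdiff]
    refine ⟨hV hi.1, fun hiP => hi.2 ?_⟩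
    have : i ∈ T ∩ P := hTV ▸ mem_inter.2 ⟨hi.1, hiP⟩
    exact (mem_inter.1 this).1
  have conv : ∀ (U : Finset ℕ) (f : ℕ → ℝ), U ⊆ S → (∀ i ∈ S, f i = if i ∈ U then w i else 0) →
      ∑ i ∈ U, w i = ∑ i ∈ S, f i := by
    intro U f hU hf
    rw [sum_congr rfl hf, ← sum_filter, filter_mem_eq_inter, inter_eq_right.2 hU]
  have eT : ∑ i ∈ T \ V, w i = ∑ i ∈ S, w i * ((1 + sg T i) * (1 - sg V i)) / 4 := by
    refine conv _ _ hsub fun i _ => ?_
    unfold sg
    by_cases c1 : i ∈ T <;> by_cases c2 : i ∈ V <;> simp [c1, c2]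
    ring
  have eV : ∑ i ∈ V \ T, w i = ∑ i ∈ S, w i * ((1 - sg T i) * (1 + sg V i)) / 4 := by
    refine conv _ _ hsub' fun i _ => ?_
    unfold sg
    by_cases c1 : i ∈ T <;> by_cases c2 : i ∈ V <;> simp [c1, c2]
    ring
  have eTV : ∑ i ∈ (T ∩ V) ∩ S, w i = ∑ i ∈ S, w i * ((1 + sg T i) * (1 + sg V i)) / 4 := by
    refine conv _ _ inter_subset_right fun i hi => ?_
    unfold sg
    by_cases c1 : i ∈ T <;> by_cases c2 : i ∈ V <;> simp [c1, c2, hi]
    ring
  have hsplit : ∑ i ∈ T ∩ V, w i = ∑ i ∈ T ∩ P, w i + ∑ i ∈ (T ∩ V) ∩ S, w i := by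
    rw [← sum_union]
    · congr 1
      ext i
      rw [mem_union, mem_inter, mem_inter, mem_inter, mem_inter, hS, mem_sdiff]
      constructor
      · rintro ⟨a, b⟩
        by_cases hiP : i ∈ P
        · exact Or.inl ⟨a, hiP⟩
        · exact Or.inr ⟨⟨a, b⟩, hT a, hiP⟩
      · rintro (⟨a, b⟩ | ⟨a, _⟩)
        · have : i ∈ V ∩ P := hTV ▸ mem_inter.2 ⟨a, b⟩
          exact ⟨a, (mem_inter.1 this).1⟩
        · exact a
    · rw [disjoint_left]
      intro i hi hi'
      exact (mem_sdiff.1 (mem_inter.1 hi').2).2 (mem_inter.1 hi).2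
  have hP1 : ws * (T ∩ P).card ≤ ∑ i ∈ T ∩ P, w i := by
    rw [mul_comm, ← nsmul_eq_mul, ← sum_const]
    exact sum_le_sum fun i hi => hwP i (mem_inter.1 hi).2
  have hP2 : ∑ i ∈ P, (1 : ℝ) * sg T i = 2 * (T ∩ P).card - P.card := by
    have e1 : ∀ i ∈ P, (1 : ℝ) * sg T i = 2 * (if i ∈ T then 1 else 0) - 1 := by
      intro i _
      unfold sg
      split_ifs <;> norm_num
    rw [sum_congr rfl e1, sum_sub_distrib, ← mul_sum, sum_const, nsmul_eq_mul, mul_one,
      ← sum_filter, filter_mem_eq_inter, sum_const, nsmul_eq_mul, mul_one, inter_comm]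
  have hP3 : (P.card : ℝ) - l1 ≤ 2 * (T ∩ P).card := by
    have := (abs_le.1 h1).1
    rw [hP2] at this
    linarith
  have a1 := (abs_le.1 h2).1
  have a2 := (abs_le.1 h2').1
  set p := ∑ i ∈ S, w i * (sg T i * sg V i) with hp
  set a := ∑ i ∈ S, w i * sg T i with ha
  set b := ∑ i ∈ S, w i * sg V i with hb
  set W := ∑ i ∈ S, w i with hW
  have f1 : ∑ i ∈ S, w i * ((1 + sg T i) * (1 + sg V i)) / 4 = (W + a + b + p) / 4 := by
    rw [hW, ha, hb, hp, ← sum_add_distrib, ← sum_add_distrib, ← sum_add_distrib, sum_div]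
    exact sum_congr rfl fun i _ => by ring
  have f2 : ∑ i ∈ S, w i * ((1 + sg T i) * (1 - sg V i)) / 4 = (W + a - b - p) / 4 := by
    rw [hW, ha, hb, hp, ← sum_add_distrib, ← sum_sub_distrib, ← sum_sub_distrib, sum_div]
    exact sum_congr rfl fun i _ => by ring
  have f3 : ∑ i ∈ S, w i * ((1 - sg T i) * (1 + sg V i)) / 4 = (W - a + b - p) / 4 := by
    rw [hW, ha, hb, hp, ← sum_sub_distrib, ← sum_add_distrib, ← sum_sub_distrib, sum_div]
    exact sum_congr rfl fun i _ => by ring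
  rw [eT, eV, hsplit, eTV, f1, f2, f3] at hc
  have h6 : ws * (P.card - l1) ≤ 2 * (ws * (T ∩ P).card) := by
    have := mul_le_mul_of_nonneg_left hP3 hws
    linarith
  rcases le_max_iff.1 hc with h | h <;> linarith

/-- **Families of compatible typical sets are small.** -/
theorem family (ε : ℝ) (hε : 0 < ε) : ∃ (n0 : ℕ) (C0 : ℝ), 0 ≤ C0 ∧ ∀ R : Finset ℕ,
    (∀ i ∈ R, 2 ≤ i) → (R : Set ℕ).Pairwise Nat.Coprime → n0 ≤ R.card →
    ∃ 𝒯 ⊆ R.powerset, (3 / 4 : ℝ) * 2 ^ R.card ≤ (𝒯.card : ℝ) ∧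
      ∀ C ⊆ 𝒯, (∀ T ∈ C, ∀ V ∈ C, T ≠ V → Compat T V) →
        (C.card : ℝ) ≤ Real.exp (ε * R.card + C0) := by
  classical
  set θ := min ε (1 / 2) with hθd
  have hθ : 0 < θ := lt_min hε (by norm_num)
  have hθ1 : θ ≤ 1 / 2 := min_le_right _ _
  have hθε : θ ≤ ε := min_le_left _ _
  obtain ⟨n0, hn0⟩ := exists_nat_ge (128 / θ ^ 2)
  refine ⟨n0 + 1, Real.log 2 + Real.log (1 + 2 / θ), add_nonneg (Real.log_nonneg (by norm_num))
    (Real.log_nonneg (by have : 0 < 2 / θ := by positivity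
                         linarith)), ?_⟩
  intro R h2 hR hr
  set r := R.card with hrd
  have hr1 : (1 : ℝ) ≤ r := by exact_mod_cast (by omega : 1 ≤ r)
  have hr0 : (0 : ℝ) < r := by linarith
  have hrn : 128 / θ ^ 2 ≤ r := hn0.trans (by exact_mod_cast (by omega : n0 ≤ r))
  set m := ⌈θ * r⌉₊ with hm
  have hm1 : θ * r ≤ m := Nat.le_ceil _
  have hm2 : m ≤ r := by
    rw [hm, Nat.ceil_le]
    nlinarith
  have hm3 : (m : ℝ) ≤ θ * r + 1 := (Nat.ceil_lt_add_one (by positivity)).le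
  have hm0 : 0 < m := Nat.ceil_pos.2 (by positivity)
  have hm0' : (0 : ℝ) < m := by exact_mod_cast hm0
  have hm2' : (m : ℝ) ≤ r := by exact_mod_cast hm2
  obtain ⟨P, hP, hPc, htop⟩ := exists_top R m hm2
  have hPne : P.Nonempty := by
    rw [← card_pos]
    omega
  set w : ℕ → ℝ := fun i => Real.log i with hw
  set ws := w (P.min' hPne) with hws
  have hminP := P.min'_mem hPne
  have hws0 : 0 < ws := by
    have := h2 _ (hP hminP)
    exact Real.log_pos (by exact_mod_cast (by omega : 1 < P.min' hPne))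
  have hwP : ∀ j ∈ P, ws ≤ w j := by
    intro j hj
    have h1 := h2 _ (hP hminP)
    exact Real.log_le_log (by exact_mod_cast (by omega : 0 < P.min' hPne))
      (by exact_mod_cast P.min'_le j hj)
  have hwS : ∀ i ∈ R \ P, 0 ≤ w i ∧ w i ≤ ws := by
    intro i hi
    have h1 := h2 _ (mem_sdiff.1 hi).1
    refine ⟨Real.log_nonneg (by exact_mod_cast (by omega : 1 ≤ i)), ?_⟩
    exact Real.log_le_log (by exact_mod_cast (by omega : 0 < i))
      (by exact_mod_cast htop i hi _ hminP)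
  set l1 : ℝ := θ * r / 4 with hl1
  set l2 : ℝ := θ * r / 4 * ws with hl2
  have hl1' : 0 < l1 := by positivity
  have hl2' : 0 < l2 := by positivity
  have hScard : ((R \ P).card : ℝ) ≤ r := by exact_mod_cast card_le_card sdiff_subset
  have c1 := cheb (fun _ => 1) R P hP (l := l1) (V := r) hl1' (by
    simp only [one_pow, sum_const, nsmul_eq_mul, mul_one, hPc]
    exact hm2')
  have c2 := cheb w R (R \ P) sdiff_subset (l := l2) (V := r * ws ^ 2) hl2' (by
    have : ∑ i ∈ R \ P, w i ^ 2 ≤ ∑ i ∈ R \ P, ws ^ 2 :=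
      sum_le_sum fun i hi => pow_le_pow_left₀ (hwS i hi).1 (hwS i hi).2 2
    refine this.trans ?_
    rw [sum_const, nsmul_eq_mul]
    exact mul_le_mul_of_nonneg_right hScard (by positivity))
  set B1 := R.powerset.filter fun T => ¬ |∑ i ∈ P, (1 : ℝ) * sg T i| ≤ l1 with hB1
  set B2 := R.powerset.filter fun T => ¬ |∑ i ∈ R \ P, w i * sg T i| ≤ l2 with hB2
  have h2r : (0 : ℝ) < 2 ^ r := by positivity
  have hq : 128 ≤ θ ^ 2 * r := by
    rw [div_le_iff₀ (by positivity)] at hrn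
    linarith
  have b1 : (B1.card : ℝ) ≤ 1 / 8 * 2 ^ r := by
    have e1 : (B1.card : ℝ) * (θ ^ 2 * r) * (r / 16) ≤ 2 ^ r * r := by
      have : (B1.card : ℝ) * l1 ^ 2 = (B1.card : ℝ) * (θ ^ 2 * r) * (r / 16) := by
        rw [hl1]; ring
      rw [← this]
      exact c1
    have e2 : (B1.card : ℝ) * 128 * (r / 16) ≤ (B1.card : ℝ) * (θ ^ 2 * r) * (r / 16) :=
      mul_le_mul_of_nonneg_right (mul_le_mul_of_nonneg_left hq (Nat.cast_nonneg _)) (by positivity)
    have e3 : (8 * (B1.card : ℝ)) * r ≤ 2 ^ r * r := by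
      have : (B1.card : ℝ) * 128 * (r / 16) = (8 * (B1.card : ℝ)) * r := by ring
      linarith
    have := le_of_mul_le_mul_right e3 hr0
    linarith
  have b2 : (B2.card : ℝ) ≤ 1 / 8 * 2 ^ r := by
    have e1 : (B2.card : ℝ) * (θ ^ 2 * r) * (r / 16) * ws ^ 2 ≤ (2 ^ r * r) * ws ^ 2 := by
      have : (B2.card : ℝ) * l2 ^ 2 = (B2.card : ℝ) * (θ ^ 2 * r) * (r / 16) * ws ^ 2 := by
        rw [hl2]; ring
      rw [← this]
      refine c2.trans (le_of_eq ?_)
      ring
    have e1' := le_of_mul_le_mul_right e1 (by positivity)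
    have e2 : (B2.card : ℝ) * 128 * (r / 16) ≤ (B2.card : ℝ) * (θ ^ 2 * r) * (r / 16) :=
      mul_le_mul_of_nonneg_right (mul_le_mul_of_nonneg_left hq (Nat.cast_nonneg _)) (by positivity)
    have e3 : (8 * (B2.card : ℝ)) * r ≤ 2 ^ r * r := by
      have : (B2.card : ℝ) * 128 * (r / 16) = (8 * (B2.card : ℝ)) * r := by ring
      linarith
    have := le_of_mul_le_mul_right e3 hr0
    linarith
  refine ⟨R.powerset \ (B1 ∪ B2), sdiff_subset, ?_, ?_⟩
  · have h3 : (R.powerset.card : ℝ) ≤ (R.powerset \ (B1 ∪ B2)).card + (B1.card + B2.card) := by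
      have := card_le_card_sdiff_add_card (s := R.powerset) (t := B1 ∪ B2)
      have h4 := card_union_le B1 B2
      exact_mod_cast this.trans (Nat.add_le_add_left h4 _)
    rw [card_powerset] at h3
    push_cast at h3
    linarith
  · intro C hC hcomp
    have hCp : ∀ T ∈ C, T ⊆ R ∧ |∑ i ∈ P, (1 : ℝ) * sg T i| ≤ l1 ∧
        |∑ i ∈ R \ P, w i * sg T i| ≤ l2 := by
      intro T hT
      have h3 := hC hT
      rw [mem_sdiff, mem_union, not_or, hB1, hB2, mem_filter, mem_filter] at h3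
      refine ⟨mem_powerset.1 h3.1, ?_, ?_⟩
      · by_contra hcon
        exact h3.2.1 ⟨h3.1, hcon⟩
      · by_contra hcon
        exact h3.2.2 ⟨h3.1, hcon⟩
    have hfib : ∀ D ∈ P.powerset, ((C.filter fun T => T ∩ P = D).card : ℝ) ≤ 1 + 2 / θ := by
      intro D _
      have h3 := rankin (w := w) (S := R \ P) (C := C.filter fun T => T ∩ P = D) (W := r * ws)
        (b := ws * m / 2) (fun i hi => (hwS i hi).1) (by
          refine (sum_le_sum fun i hi => (hwS i hi).2).trans ?_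
          rw [sum_const, nsmul_eq_mul]
          exact mul_le_mul_of_nonneg_right hScard hws0.le) (by positivity) (by
          intro T hT V hV hne
          rw [mem_filter] at hT hV
          have t1 := hCp T hT.1
          have t2 := hCp V hV.1
          have h4 := neg_inner (w := w) hP t1.1 t2.1 hws0.le hwP (hT.2.trans hV.2.symm)
            (compat_log h2 hR t1.1 t2.1 hne (hcomp T hT.1 V hV.1 hne)) t1.2.1 t1.2.2 t2.2.2
          refine h4.trans ?_
          rw [hPc, hl1, hl2]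
          have := mul_le_mul_of_nonneg_right hm1 hws0.le
          linarith)
      refine h3.trans ?_
      have h5 : (r : ℝ) * ws / (ws * m / 2) ≤ 2 / θ := by
        rw [div_le_div_iff₀ (by positivity) hθ]
        have := mul_le_mul_of_nonneg_right hm1 hws0.le
        nlinarith
      linarith
    have hsum : (C.card : ℝ) = ∑ D ∈ P.powerset, ((C.filter fun T => T ∩ P = D).card : ℝ) := by
      rw [← Nat.cast_sum]
      congr 1
      exact card_eq_sum_card_fiberwise fun T _ => by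
        rw [mem_coe, mem_powerset]
        exact inter_subset_right
    rw [hsum]
    refine (sum_le_sum hfib).trans ?_
    rw [sum_const, nsmul_eq_mul, card_powerset, hPc]
    push_cast
    have hpos : 0 < 1 + 2 / θ := by positivity
    have e5 : (2 : ℝ) ^ m ≤ Real.exp (ε * r + Real.log 2) := by
      rw [← Real.rpow_natCast, Real.rpow_def_of_pos (by norm_num)]
      refine Real.exp_le_exp.2 ?_
      have hl2 : Real.log 2 ≤ 1 := by
        have := Real.log_two_lt_d9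
        linarith
      have hl2p : 0 < Real.log 2 := Real.log_pos (by norm_num)
      have e6 : Real.log 2 * m ≤ Real.log 2 * (θ * r + 1) :=
        mul_le_mul_of_nonneg_left hm3 hl2p.le
      have e7 : Real.log 2 * (θ * r) ≤ 1 * (θ * r) :=
        mul_le_mul_of_nonneg_right hl2 (by positivity)
      have e8 : θ * r ≤ ε * r := mul_le_mul_of_nonneg_right hθε hr0.le
      linarith
    calc (2 : ℝ) ^ m * (1 + 2 / θ) ≤ Real.exp (ε * r + Real.log 2) * (1 + 2 / θ) :=
          mul_le_mul_of_nonneg_right e5 hpos.le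
      _ = Real.exp (ε * r + (Real.log 2 + Real.log (1 + 2 / θ))) := by
          rw [← add_assoc, Real.exp_add (ε * r + Real.log 2), Real.exp_log hpos]

end Pool.Agent.Helper96.TS
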