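import Mathlib

/-!
# From products of many elements to products with an arbitrary set
-/

set_option autoImplicit false

namespace Pool.Agent.Helper96.TS

open Finset
open scoped Pointwise

/-- Plünnecke's inequality for sets of units -/
lemma ply_group {G : Type*} [CommGroup G] [DecidableEq G] (Z B : Finset G) (hB : B.Nonempty)
    (k : ℕ) : ((Z ^ k).card : ℝ) * (B.card : ℝ) ^ k ≤ ((Z * B).card : ℝ) ^ k * B.card := by
  have h := Finset.pluennecke_ruzsa_inequality_pow_mul hB Z k
  have hb : (0 : ℝ) < B.card := by exact_mod_cast card_pos.2 hB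
  have h' : ((Z ^ k).card : ℝ) ≤ (((B * Z).card : ℝ) / B.card) ^ k * B.card := by
    have := (NNRat.cast_le (K := ℝ)).2 h
    push_cast at this
    exact this
  rw [mul_comm B Z, div_pow, div_mul_eq_mul_div, le_div_iff₀ (by positivity)] at h'
  exact h'

/-- nonzero elements of a field -/
noncomputable def toU {F : Type*} [Field F] (Z : Finset F) : Finset Fˣ := by
  classical exact Z.preimage (fun u : Fˣ => (u : F)) (Units.val_injective.injOn)

lemma mem_toU {F : Type*} [Field F] {Z : Finset F} {u : Fˣ} : u ∈ toU Z ↔ (u : F) ∈ Z := by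
  unfold toU
  rw [mem_preimage]

lemma image_toU {F : Type*} [Field F] [DecidableEq F] {Z : Finset F} (h0 : (0 : F) ∉ Z) :
    (toU Z).image (fun u : Fˣ => (u : F)) = Z := by
  ext z
  rw [mem_image]
  constructor
  · rintro ⟨u, hu, rfl⟩
    exact mem_toU.1 hu
  · intro hz
    have : z ≠ 0 := fun h => h0 (h ▸ hz)
    exact ⟨Units.mk0 z this, mem_toU.2 hz, rfl⟩

lemma card_toU {F : Type*} [Field F] [DecidableEq F] {Z : Finset F} (h0 : (0 : F) ∉ Z) :
    (toU Z).card = Z.card := by
  conv_rhs => rw [← image_toU h0]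
  rw [card_image_of_injective _ Units.val_injective]

/-- Plünnecke's inequality for sets of nonzero elements of a field -/
lemma ply_field {F : Type*} [Field F] [DecidableEq F] {Z B : Finset F} (hZ : (0 : F) ∉ Z)
    (hB0 : (0 : F) ∉ B) (hB : B.Nonempty) (k : ℕ) :
    ((Z ^ k).card : ℝ) * (B.card : ℝ) ^ k ≤ ((Z * B).card : ℝ) ^ k * B.card := by
  classical
  have hBU : (toU B).Nonempty := by
    rw [← card_pos, card_toU hB0]
    exact card_pos.2 hB
  have h := ply_group (toU Z) (toU B) hBU k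
  have e0 : ∀ X Y : Finset Fˣ, (X * Y).image (fun u : Fˣ => (u : F)) =
      X.image (fun u : Fˣ => (u : F)) * Y.image (fun u : Fˣ => (u : F)) := by
    intro X Y
    exact image_mul (Units.coeHom F)
  have e1 : ((toU Z) ^ k).card = (Z ^ k).card := by
    rw [← card_image_of_injective ((toU Z) ^ k) (Units.val_injective (α := F))]
    congr 1
    have : ∀ k : ℕ, ((toU Z) ^ k).image (fun u : Fˣ => (u : F)) = Z ^ k := by
      intro k
      induction k with
      | zero =>
        rw [pow_zero, pow_zero]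
        ext x
        simp
      | succ k ih => rw [pow_succ, pow_succ, e0, ih, image_toU hZ]
    convert this k
  have e2 : (toU Z * toU B).card = (Z * B).card := by
    rw [← card_image_of_injective (toU Z * toU B) (Units.val_injective (α := F))]
    congr 1
    have := e0 (toU Z) (toU B)
    rw [image_toU hZ, image_toU hB0] at this
    convert this
  rw [e2, card_toU hB0] at h
  rw [← e1]
  convert h

/-- **From the products of `k` elements of `Z` to the products with any set `B`.** -/
theorem of_pow {Z : Finset ℚ} {k : ℕ} (hk : 1 ≤ k) {c ε z : ℝ} (hc : 0 < c)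
    (hε1 : ε ≤ 1) (hkε : 1 ≤ k * ε) (hz : 1 ≤ z)
    (h : c * z ^ ((k : ℝ) * (1 - ε)) ≤ (((Z.erase 0) ^ k).card : ℝ)) (B : Finset ℂ)
    (hB : ∃ b ∈ B, b ≠ 0) :
    min 1 c / 2 * (z * B.card) ^ (1 - ε) ≤
      ((Z.image (fun q : ℚ => (q : ℂ)) * B).card : ℝ) := by
  classical
  set Z0 := (Z.erase 0).image (fun q : ℚ => (q : ℂ)) with hZ0
  set B0 := B.erase 0 with hB0
  have hinj : Function.Injective (fun q : ℚ => (q : ℂ)) := Rat.cast_injective
  have h1 : (0 : ℂ) ∉ Z0 := by
    rw [hZ0, mem_image]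
    rintro ⟨q, hq, hq0⟩
    have : q = 0 := by exact_mod_cast hq0
    exact (mem_erase.1 hq).1 this
  have h2 : (0 : ℂ) ∉ B0 := notMem_erase _ _
  have h3 : B0.Nonempty := by
    obtain ⟨b, hb, hb0⟩ := hB
    exact ⟨b, mem_erase.2 ⟨hb0, hb⟩⟩
  have h4 := ply_field h1 h2 h3 k
  have h5 : (Z0 ^ k).card = ((Z.erase 0) ^ k).card := by
    have : Z0 ^ k = ((Z.erase 0) ^ k).image (fun q : ℚ => (q : ℂ)) := by
      rw [hZ0]
      have := image_pow (Rat.castHom ℂ) (Z.erase 0) k
      rw [Rat.coe_castHom] at this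
      exact this.symm
    rw [this, card_image_of_injective _ hinj]
  have hB1 : (1 : ℝ) ≤ B0.card := by exact_mod_cast card_pos.2 h3
  have hBc : (B.card : ℝ) ≤ 2 * B0.card := by
    have : B.card ≤ B0.card + 1 := by
      have := Finset.pred_card_le_card_erase (s := B) (a := (0 : ℂ))
      rw [hB0]
      omega
    have h6 : (B.card : ℝ) ≤ B0.card + 1 := by exact_mod_cast this
    linarith
  have hsub : ((Z0 * B0).card : ℝ) ≤ ((Z.image (fun q : ℚ => (q : ℂ)) * B).card : ℝ) := by
    rw [Nat.cast_le]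
    exact card_le_card (mul_subset_mul (image_subset_image (erase_subset _ _)) (erase_subset _ _))
  refine le_trans ?_ hsub
  set y : ℝ := ((Z0 * B0).card : ℝ) with hy
  have hy0 : 0 ≤ y := Nat.cast_nonneg _
  have hbp : (0 : ℝ) < B0.card := by linarith
  have hk0 : (0 : ℝ) < k := by exact_mod_cast hk
  have hzp : 0 < z := by linarith
  set m := min 1 c with hm
  have hm0 : 0 < m := lt_min one_pos hc
  have hm1 : m ≤ 1 := min_le_left _ _
  -- y ^ k ≥ (m * (z b)^(1 - ε))^k
  have h6 : (m * (z * B0.card) ^ (1 - ε)) ^ k ≤ y ^ k := by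
    have h7 : c * z ^ ((k : ℝ) * (1 - ε)) * (B0.card : ℝ) ^ k ≤ y ^ k * B0.card := by
      refine le_trans ?_ h4
      rw [h5]
      exact mul_le_mul_of_nonneg_right h (by positivity)
    have h8 : m ^ k ≤ c := by
      calc m ^ k ≤ m ^ 1 := pow_le_pow_of_le_one hm0.le hm1 hk
        _ = m := pow_one _
        _ ≤ c := min_le_right _ _
    have h9 : (m * (z * B0.card) ^ (1 - ε)) ^ k = m ^ k * z ^ ((k : ℝ) * (1 - ε)) *
        (B0.card : ℝ) ^ ((k : ℝ) * (1 - ε)) := by
      rw [mul_pow, ← Real.rpow_natCast ((z * (B0.card : ℝ)) ^ (1 - ε)) k, ← Real.rpow_mul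
        (by positivity), Real.mul_rpow hzp.le hbp.le, mul_comm (1 - ε) (k : ℝ), mul_assoc]
    rw [h9]
    have h10 : (B0.card : ℝ) ^ ((k : ℝ) * (1 - ε)) * B0.card ≤ (B0.card : ℝ) ^ k := by
      have e1 : (B0.card : ℝ) ^ ((k : ℝ) * (1 - ε)) * B0.card =
          (B0.card : ℝ) ^ ((k : ℝ) * (1 - ε) + 1) := by
        rw [Real.rpow_add hbp, Real.rpow_one]
      rw [e1, ← Real.rpow_natCast (B0.card : ℝ) k]
      exact Real.rpow_le_rpow_of_exponent_le hB1 (by nlinarith)
    have h11 : m ^ k * z ^ ((k : ℝ) * (1 - ε)) * (B0.card : ℝ) ^ ((k : ℝ) * (1 - ε)) * B0.card ≤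
        y ^ k * B0.card := by
      refine le_trans ?_ h7
      calc m ^ k * z ^ ((k : ℝ) * (1 - ε)) * (B0.card : ℝ) ^ ((k : ℝ) * (1 - ε)) * B0.card
          = (m ^ k * z ^ ((k : ℝ) * (1 - ε))) *
            ((B0.card : ℝ) ^ ((k : ℝ) * (1 - ε)) * B0.card) := by ring
        _ ≤ (c * z ^ ((k : ℝ) * (1 - ε))) * (B0.card : ℝ) ^ k :=
          mul_le_mul (mul_le_mul_of_nonneg_right h8 (by positivity)) h10 (by positivity)
            (by positivity)
    exact le_of_mul_le_mul_right h11 hbp
  have h12 : m * (z * B0.card) ^ (1 - ε) ≤ y :=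
    le_of_pow_le_pow_left₀ (by omega) hy0 h6
  refine le_trans ?_ h12
  have h13 : (z * B.card) ^ (1 - ε) ≤ 2 * (z * B0.card) ^ (1 - ε) := by
    calc (z * B.card) ^ (1 - ε) ≤ (2 * (z * B0.card)) ^ (1 - ε) :=
          Real.rpow_le_rpow (by positivity) (by nlinarith) (by linarith)
      _ = 2 ^ (1 - ε) * (z * B0.card) ^ (1 - ε) := Real.mul_rpow (by norm_num) (by positivity)
      _ ≤ 2 * (z * B0.card) ^ (1 - ε) := by
          refine mul_le_mul_of_nonneg_right ?_ (by positivity)
          calc (2 : ℝ) ^ (1 - ε) ≤ 2 ^ (1 : ℝ) := by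
                refine Real.rpow_le_rpow_of_exponent_le (by norm_num) ?_
                have : 0 < ε := by
                  by_contra hcon
                  rw [not_lt] at hcon
                  nlinarith
                linarith
            _ = 2 := Real.rpow_one _
  have := mul_le_mul_of_nonneg_left h13 (show 0 ≤ m / 2 by positivity)
  linarith

end Pool.Agent.Helper96.TS
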