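import Pool.Agent.Helper96.TS.BigK
import Pool.Agent.Helper96.TS.Ply
import Pool.Agent.Helper96.Rat.Fin

/-!
# Cubes with rational steps, multiplied by arbitrary sets
-/

set_option autoImplicit false

namespace Pool.Agent.Helper96.TS

open Finset Pool.Agent.Helper96.Rat
open scoped Classical Pointwise

/-- iterated products of a set of integers -/
lemma pow_iter {W : Finset ℤ} (hW : ∃ w ∈ W, w ≠ 0) {c e : ℝ} (hc : 0 < c) (he : 0 ≤ e)
    (he1 : e ≤ 1)
    (h : ∀ B : Finset ℤ, (∃ b ∈ B, b ≠ 0) →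
      c * ((W.card : ℝ) * B.card) ^ (1 - e) ≤ ((W * B).card : ℝ)) :
    ∀ j : ℕ, (min 1 c) ^ (j + 1) * (W.card : ℝ) ^ (((j + 1 : ℕ) : ℝ) * (1 - ((j + 1 : ℕ) : ℝ) * e)) ≤
      ((W ^ (j + 1)).card : ℝ) := by
  obtain ⟨w, hw, hw0⟩ := hW
  have hWc : (1 : ℝ) ≤ W.card := by exact_mod_cast card_pos.2 ⟨w, hw⟩
  have hWp : (0 : ℝ) < W.card := by linarith
  set m := min 1 c with hm
  have hm0 : 0 < m := lt_min one_pos hc
  have hm1 : m ≤ 1 := min_le_left _ _
  have hmc : m ≤ c := min_le_right _ _
  intro j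
  induction j with
  | zero =>
    rw [zero_add, pow_one, pow_one, Nat.cast_one, one_mul, one_mul]
    calc m * (W.card : ℝ) ^ (1 - e) ≤ 1 * (W.card : ℝ) ^ (1 : ℝ) :=
          mul_le_mul hm1 (Real.rpow_le_rpow_of_exponent_le hWc (by linarith)) (by positivity)
            zero_le_one
      _ = _ := by rw [one_mul, Real.rpow_one]
  | succ j ih =>
    have h1 := h (W ^ (j + 1)) ⟨w ^ (j + 1), pow_mem_pow hw, pow_ne_zero _ hw0⟩
    rw [← pow_succ'] at h1
    refine le_trans ?_ h1
    set x : ℝ := ((j + 1 : ℕ) : ℝ) with hx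
    have hx0 : 0 ≤ x := Nat.cast_nonneg _
    have hx2 : ((j + 1 + 1 : ℕ) : ℝ) = x + 1 := by rw [hx]; push_cast; ring
    rw [hx2]
    have h2 : m ^ (j + 1) * (W.card : ℝ) ^ (1 + x * (1 - x * e)) ≤
        (W.card : ℝ) * ((W ^ (j + 1)).card : ℝ) := by
      rw [Real.rpow_add hWp, Real.rpow_one]
      calc m ^ (j + 1) * ((W.card : ℝ) * (W.card : ℝ) ^ (x * (1 - x * e))) =
            (W.card : ℝ) * (m ^ (j + 1) * (W.card : ℝ) ^ (x * (1 - x * e))) := by ring
        _ ≤ _ := mul_le_mul_of_nonneg_left ih hWp.le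
    have h3 : m ^ (j + 1) * (W.card : ℝ) ^ ((x + 1) * (1 - (x + 1) * e)) ≤
        ((W.card : ℝ) * ((W ^ (j + 1)).card : ℝ)) ^ (1 - e) := by
      refine le_trans ?_ (Real.rpow_le_rpow (by positivity) h2 (by linarith))
      rw [Real.mul_rpow (by positivity) (by positivity), ← Real.rpow_mul hWp.le]
      refine mul_le_mul ?_ ?_ (by positivity) (by positivity)
      · calc m ^ (j + 1) = (m ^ (j + 1)) ^ (1 : ℝ) := (Real.rpow_one _).symm
          _ ≤ (m ^ (j + 1)) ^ (1 - e) :=
            Real.rpow_le_rpow_of_exponent_ge (by positivity) (pow_le_one₀ hm0.le hm1) (by linarith)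
      · refine Real.rpow_le_rpow_of_exponent_le hWc ?_
        have : 0 ≤ e * x + e ^ 2 * x ^ 2 := by positivity
        nlinarith
    calc m ^ (j + 1 + 1) * (W.card : ℝ) ^ ((x + 1) * (1 - (x + 1) * e)) =
          m * (m ^ (j + 1) * (W.card : ℝ) ^ ((x + 1) * (1 - (x + 1) * e))) := by ring
      _ ≤ c * ((W.card : ℝ) * ((W ^ (j + 1)).card : ℝ)) ^ (1 - e) :=
        mul_le_mul hmc h3 (by positivity) hc.le

/-- removing zero -/
lemma erase_pow {W : Finset ℤ} (hW : ∃ w ∈ W, w ≠ 0) (k : ℕ) :
    ((W ^ k).card : ℝ) ≤ 2 * (((W.erase 0) ^ k).card : ℝ) := by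
  have h1 : ∀ k : ℕ, W ^ k ⊆ insert 0 ((W.erase 0) ^ k) := by
    intro k
    induction k with
    | zero => rw [pow_zero, pow_zero]; exact subset_insert _ _
    | succ k ih =>
      rw [pow_succ, pow_succ]
      intro x hx
      obtain ⟨y, hy, z, hz, rfl⟩ := mem_mul.1 hx
      rcases mem_insert.1 (ih hy) with h | h
      · rw [h, zero_mul]
        exact mem_insert_self _ _
      · by_cases hz0 : z = 0
        · rw [hz0, mul_zero]
          exact mem_insert_self _ _
        · exact mem_insert_of_mem (mul_mem_mul h (mem_erase.2 ⟨hz0, hz⟩))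
  have h2 := (card_le_card (h1 k)).trans (card_insert_le _ _)
  have h3 : 0 < ((W.erase 0) ^ k).card := by
    obtain ⟨w, hw, hw0⟩ := hW
    exact card_pos.2 (Finset.Nonempty.pow ⟨w, mem_erase.2 ⟨hw0, hw⟩⟩)
  have : (W ^ k).card ≤ 2 * ((W.erase 0) ^ k).card := by omega
  exact_mod_cast this

/-- **Products of several elements of a cube with rational steps.** -/
theorem powers (ε : ℝ) (hε : 0 < ε) (hε1 : ε ≤ 1) (K k : ℕ) (hk : 1 ≤ k) :
    ∃ n0 : ℕ, ∀ M : ℕ, M ≠ 0 →
    ∃ c : ℝ, 0 < c ∧ ∀ n : ℕ, n0 ≤ n → ∀ h : Fin n → ℚ,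
      (∀ i j, i ≠ j → Nat.Coprime (h i).den (h j).den) →
      (∀ p : ℕ, p.Prime →
        (univ.filter fun i => (p : ℤ) ^ (M.factorization p + 1) ∣ (h i).num).card ≤ K) →
      ∀ A : Finset ℤ, A.Nonempty →
        c * ((cube A h).card : ℝ) ^ ((k : ℝ) * (1 - ε)) ≤
          ((((cube A h).erase 0) ^ k).card : ℝ) := by
  obtain ⟨n1, H1⟩ := bigk ε hε hε1 k hk
  have hk0 : (1 : ℝ) ≤ k := by exact_mod_cast hk
  have hek : 0 < ε / k := by positivity
  have hek1 : ε / k ≤ 1 := by
    rw [div_le_one (by linarith)]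
    linarith
  obtain ⟨m, c1, hc1, H2⟩ := Pool.Agent.Helper96.Shf.cubes (ε / k) hek hek1 K
  set r0 := n1 + K with hr0
  refine ⟨r0 + m + K + 1, fun M hM => ?_⟩
  obtain ⟨c2, hc2, H3⟩ := H1 M hM
  have hMd : (0 : ℝ) < M.divisors.card := by
    have : 0 < M.divisors.card := card_pos.2 ⟨1, Nat.one_mem_divisors.2 hM⟩
    exact_mod_cast this
  set c3 := c1 / (M.divisors.card : ℝ) ^ 2 with hc3
  have hc3p : 0 < c3 := by positivity
  have hexp : 0 ≤ (k : ℝ) * (1 - ε) := mul_nonneg (by linarith) (by linarith)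
  set c4 := (min 1 c3) ^ k / 2 / (2 ^ r0) ^ ((k : ℝ) * (1 - ε)) with hc4
  have hc4p : 0 < c4 := by
    have : 0 < min 1 c3 := lt_min one_pos hc3p
    positivity
  refine ⟨min c2 c4, lt_min hc2 hc4p, ?_⟩
  intro n hn h hcop hK A hA
  set F : Finset (Fin n) := univ.filter fun i => (h i).den = 1 with hFd
  set R : Finset (Fin n) := univ.filter fun i => ¬ (h i).den = 1 with hRd
  have hFR : F.card + R.card = n := by
    have := card_filter_add_card_filter_not (s := (univ : Finset (Fin n))) (fun i => (h i).den = 1)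
    rwa [card_univ, Fintype.card_fin] at this
  have hF : ∀ i ∈ F, (h i).den = 1 := fun i hi => (mem_filter.1 hi).2
  have hu : F ∪ R = univ := filter_union_filter_not_eq _ _
  have hd : Disjoint F R := disjoint_filter_filter_not _ _ _
  have hne : (ipt A h F).Nonempty := by
    obtain ⟨x, hx⟩ := hA
    exact ⟨x + ∑ i ∈ ∅, (h i).num, mem_ipt.2 ⟨x, hx, ∅, empty_subset _, rfl⟩⟩
  have hcd : (cube A h).card ≤ (ipt A h F).card * 2 ^ R.card := by
    have h1 : cube A h ⊆ (ipt A h F ×ˢ R.powerset).image fun s => (s.1 : ℚ) + ∑ i ∈ s.2, h i := by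
      intro z hz
      obtain ⟨x, hx, I, hI, rfl⟩ := (cube_split hF hu hd).1 hz
      exact mem_image.2 ⟨(x, I), mem_product.2 ⟨hx, mem_powerset.2 hI⟩, rfl⟩
    refine (card_le_card h1).trans (card_image_le.trans ?_)
    rw [card_product, card_powerset]
  by_cases hR : r0 ≤ R.card
  · -- many non-integral steps
    set S := R.image fun i => (h i).den with hS
    have hinj : Set.InjOn (fun i => (h i).den) (R : Set (Fin n)) := by
      intro i hi j hj hij
      by_contra hne
      have h1 := hcop i j hne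
      have h2 : (h i).den = (h j).den := hij
      rw [h2, Nat.coprime_self] at h1
      exact (mem_filter.1 (mem_coe.1 hj)).2 h1
    have hSc : S.card = R.card := card_image_of_injOn hinj
    set g : ℕ → ℚ := fun q => ∑ i ∈ R.filter (fun i => (h i).den = q), h i with hg
    have hgi : ∀ i ∈ R, g (h i).den = h i := by
      intro i hi
      rw [hg]
      simp only
      rw [show R.filter (fun j => (h j).den = (h i).den) = {i} from ?_, sum_singleton]
      ext j
      rw [mem_filter, mem_singleton]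
      constructor
      · rintro ⟨hj, hji⟩
        exact hinj hj hi hji
      · rintro rfl
        exact ⟨hi, rfl⟩
    have hS2 : ∀ q ∈ S, 2 ≤ q := by
      intro q hq
      obtain ⟨i, hi, rfl⟩ := mem_image.1 hq
      have h1 := (mem_filter.1 hi).2
      have h2 := (h i).den_pos
      omega
    have hSg : ∀ q ∈ S, (g q).den = q := by
      intro q hq
      obtain ⟨i, hi, rfl⟩ := mem_image.1 hq
      rw [hgi i hi]
    have hScop : (S : Set ℕ).Pairwise Nat.Coprime := by
      intro q hq q' hq' hne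
      obtain ⟨i, hi, rfl⟩ := mem_image.1 (mem_coe.1 hq)
      obtain ⟨j, hj, rfl⟩ := mem_image.1 (mem_coe.1 hq')
      refine hcop i j ?_
      rintro rfl
      exact hne rfl
    have hSK : ∀ p : ℕ, p.Prime →
        (S.filter fun q => (p : ℤ) ^ (M.factorization p + 1) ∣ (g q).num).card ≤ K := by
      intro p hp
      refine le_trans ?_ (hK p hp)
      have h1 : (S.filter fun q => (p : ℤ) ^ (M.factorization p + 1) ∣ (g q).num) ⊆
          (univ.filter fun i => (p : ℤ) ^ (M.factorization p + 1) ∣ (h i).num).image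
            fun i => (h i).den := by
        intro q hq
        rw [mem_filter] at hq
        obtain ⟨i, hi, rfl⟩ := mem_image.1 hq.1
        rw [hgi i hi] at hq
        exact mem_image.2 ⟨i, mem_filter.2 ⟨mem_univ _, hq.2⟩, rfl⟩
      exact (card_le_card h1).trans card_image_le
    have key := H3 K g S hS2 hSg hScop (by
      intro p hp
      refine le_trans (le_of_eq ?_) (hSK p hp)
      congr) (by rw [hSc]; exact hR) (ipt A h F) hne
    have hsub : (ipt A h F ×ˢ S.powerset).image (zz g) ⊆ cube A h := by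
      intro z hz
      obtain ⟨⟨x, T⟩, hw, rfl⟩ := mem_image.1 hz
      rw [mem_product, mem_powerset] at hw
      refine (cube_split hF hu hd).2 ⟨x, hw.1, R.filter (fun i => (h i).den ∈ T),
        filter_subset _ _, ?_⟩
      unfold zz
      congr 1
      have h1 : T = (R.filter fun i => (h i).den ∈ T).image fun i => (h i).den := by
        ext q
        rw [mem_image]
        constructor
        · intro hq
          obtain ⟨i, hi, rfl⟩ := mem_image.1 (hw.2 hq)
          exact ⟨i, mem_filter.2 ⟨hi, hq⟩, rfl⟩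
        · rintro ⟨i, hi, rfl⟩
          exact (mem_filter.1 hi).2
      have h2 : ∑ q ∈ T, g q = ∑ i ∈ R.filter (fun i => (h i).den ∈ T), g (h i).den := by
        conv_lhs => rw [h1]
        exact sum_image fun i hi j hj hij =>
          hinj (mem_filter.1 hi).1 (mem_filter.1 hj).1 hij
      show ∑ i ∈ R.filter (fun i => (h i).den ∈ T), h i = ∑ q ∈ T, g q
      rw [h2]
      exact sum_congr rfl fun i hi => (hgi i (mem_filter.1 hi).1).symm
    have hcdR : ((cube A h).card : ℝ) ≤ ((ipt A h F).card : ℝ) * 2 ^ S.card := by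
      rw [hSc]
      exact_mod_cast hcd
    calc min c2 c4 * ((cube A h).card : ℝ) ^ ((k : ℝ) * (1 - ε))
        ≤ c2 * (((ipt A h F).card : ℝ) * 2 ^ S.card) ^ ((k : ℝ) * (1 - ε)) :=
          mul_le_mul (min_le_left _ _) (Real.rpow_le_rpow (Nat.cast_nonneg _) hcdR hexp)
            (by positivity) hc2.le
      _ ≤ _ := key
      _ ≤ _ := by
          rw [Nat.cast_le]
          refine card_le_card (pow_subset_pow_left ?_)
          convert erase_subset_erase (0 : ℚ) hsub
  · -- few non-integral steps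
    have hR' : R.card < r0 := not_le.1 hR
    set n' := F.card with hn'
    have hn'm : m + K + 1 ≤ n' := by omega
    set e := F.equivFin with he
    set u : Fin n' → ℤ := fun i => (h (e.symm i : Fin n)).num with hu'
    have hsum : ∀ I : Finset (Fin n), I ⊆ F →
        ∑ i : Fin n', (if ((e.symm i : F) : Fin n) ∈ I then u i else 0) = ∑ j ∈ I, (h j).num := by
      intro I hI
      have h1 : ∑ i : Fin n', (if ((e.symm i : F) : Fin n) ∈ I then u i else 0) =
          ∑ j : F, (if (j : Fin n) ∈ I then (h (j : Fin n)).num else 0) := by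
        rw [← Equiv.sum_comp e.symm]
      rw [h1, sum_coe_sort F (fun j => if j ∈ I then (h j).num else 0), ← sum_filter]
      congr 1
      ext j
      rw [mem_filter]
      exact ⟨fun h => h.2, fun h => ⟨hI h, h⟩⟩
    have hset : A + ∑ i : Fin n', ({0, u i} : Finset ℤ) = ipt A h F := by
      ext x
      rw [mem_add, mem_ipt]
      constructor
      · rintro ⟨a, ha, y, hy, rfl⟩
        refine ⟨a, ha, ?_⟩
        have hy' : y ∈ (∑ i : Fin n', (({0, u i} : Finset ℤ) : Set ℤ)) := by
          rw [← Finset.coe_sum]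
          exact_mod_cast hy
        rw [Set.mem_finsetSum] at hy'
        obtain ⟨v, hv, rfl⟩ := hy'
        set I : Finset (Fin n) := F.filter fun j => ∃ i : Fin n', v i ≠ 0 ∧ (e.symm i : Fin n) = j
          with hI
        refine ⟨I, filter_subset _ _, ?_⟩
        rw [← hsum I (filter_subset _ _)]
        congr 1
        refine sum_congr rfl fun i _ => ?_
        have hvi : v i = 0 ∨ v i = u i := by
          have := hv (mem_univ i)
          simpa using this
        by_cases h0 : v i = 0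
        · rw [h0, if_neg]
          intro hmem
          obtain ⟨_, i', hi', hii⟩ := mem_filter.1 hmem
          have : i' = i := e.symm.injective (Subtype.ext hii)
          subst this
          exact hi' h0
        · rw [if_pos, hvi.resolve_left h0]
          exact mem_filter.2 ⟨(e.symm i).2, i, h0, rfl⟩
      · rintro ⟨a, ha, I, hI, rfl⟩
        refine ⟨a, ha, _, ?_, rfl⟩
        rw [← hsum I hI]
        refine Pool.Agent.Helper96.Shf.mem_fsum _ _ _ fun i _ => ?_
        rw [mem_insert, mem_singleton]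
        split_ifs
        · right; rfl
        · left; rfl
    have hKF : ∀ p : ℕ, p.Prime →
        (univ.filter fun i : Fin n' => (p : ℤ) ^ (M.factorization p + 1) ∣ u i).card ≤ K := by
      intro p hp
      refine le_trans ?_ (hK p hp)
      refine card_le_card_of_injOn (fun i => ((e.symm i : F) : Fin n)) ?_ ?_
      · intro i hi
        rw [mem_coe, mem_filter] at hi ⊢
        exact ⟨mem_univ _, hi.2⟩
      · intro i _ j _ hij
        exact e.symm.injective (Subtype.ext hij)
    have hnz : ∃ b ∈ ipt A h F, b ≠ 0 := by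
      have h1 : ∃ j ∈ F, (h j).num ≠ 0 := by
        by_contra hcon
        push Not at hcon
        have h2 : F ⊆ univ.filter fun i => ((2 : ℕ) : ℤ) ^ (M.factorization 2 + 1) ∣ (h i).num := by
          intro j hj
          rw [mem_filter, hcon j hj]
          exact ⟨mem_univ _, dvd_zero _⟩
        have := (card_le_card h2).trans (hK 2 Nat.prime_two)
        omega
      obtain ⟨j, hj, hj0⟩ := h1
      obtain ⟨b, hb⟩ := hA
      by_cases hb0 : b = 0
      · refine ⟨b + ∑ i ∈ {j}, (h i).num, mem_ipt.2 ⟨b, hb, {j}, singleton_subset_iff.2 hj, rfl⟩, ?_⟩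
        rw [sum_singleton, hb0, zero_add]
        exact hj0
      · refine ⟨b + ∑ i ∈ ∅, (h i).num, mem_ipt.2 ⟨b, hb, ∅, empty_subset _, rfl⟩, ?_⟩
        rw [sum_empty, add_zero]
        exact hb0
    set W := ipt A h F with hW
    have hWc : (1 : ℝ) ≤ W.card := by exact_mod_cast card_pos.2 hne
    have hstep : ∀ B : Finset ℤ, (∃ b ∈ B, b ≠ 0) →
        c3 * ((W.card : ℝ) * B.card) ^ (1 - ε / k) ≤ ((W * B).card : ℝ) := by
      intro B hB
      have key := H2 n' (by omega) (fun i => {0, u i}) u M hM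
        (fun i => ⟨0, mem_insert_self _ _, by
          rw [zero_add]; exact mem_insert_of_mem (mem_singleton_self _)⟩)
        hKF A hA B hB
      rw [hset] at key
      rw [hc3, div_mul_eq_mul_div, div_le_iff₀ (by positivity), mul_comm _ ((M.divisors.card : ℝ) ^ 2)]
      exact key
    obtain ⟨k', rfl⟩ : ∃ k', k = k' + 1 := ⟨k - 1, by omega⟩
    have hit := pow_iter hnz hc3p hek.le hek1 hstep k'
    have hex : ((k' + 1 : ℕ) : ℝ) * (1 - ((k' + 1 : ℕ) : ℝ) * (ε / ((k' + 1 : ℕ) : ℝ))) =
        ((k' + 1 : ℕ) : ℝ) * (1 - ε) := by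
      have : ((k' + 1 : ℕ) : ℝ) ≠ 0 := by positivity
      field_simp
    rw [hex] at hit
    have her := erase_pow hnz (k' + 1)
    set E := ((k' + 1 : ℕ) : ℝ) * (1 - ε) with hE
    have hWZ : (((W.erase 0) ^ (k' + 1)).card : ℝ) ≤ ((((cube A h).erase 0) ^ (k' + 1)).card : ℝ) := by
      rw [Nat.cast_le]
      have e1 : ((W.erase 0).image (fun x : ℤ => (x : ℚ))) ⊆ (cube A h).erase 0 := by
        intro x hx
        obtain ⟨y, hy, rfl⟩ := mem_image.1 hx
        rw [mem_erase] at hy
        refine mem_erase.2 ⟨by exact_mod_cast hy.1, ?_⟩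
        refine (cube_split hF hu hd).2 ⟨y, hy.2, ∅, empty_subset _, ?_⟩
        rw [sum_empty, add_zero]
      have e2 := card_le_card (pow_subset_pow_left e1 (n := k' + 1))
      have e3 : ((W.erase 0).image (fun x : ℤ => (x : ℚ))) ^ (k' + 1) =
          ((W.erase 0) ^ (k' + 1)).image (fun x : ℤ => (x : ℚ)) := by
        have := image_pow (Int.castRingHom ℚ) (W.erase 0) (k' + 1)
        rw [Int.coe_castRingHom] at this
        exact this.symm
      rw [e3, card_image_of_injective _ Int.cast_injective] at e2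
      exact e2
    have hcdR : ((cube A h).card : ℝ) ≤ (W.card : ℝ) * 2 ^ r0 := by
      have h2r : (2 : ℝ) ^ R.card ≤ 2 ^ r0 := pow_le_pow_right₀ (by norm_num) hR'.le
      have a1 : ((cube A h).card : ℝ) ≤ W.card * 2 ^ R.card := by exact_mod_cast hcd
      exact a1.trans (mul_le_mul_of_nonneg_left h2r (Nat.cast_nonneg _))
    have h4 : ((cube A h).card : ℝ) ^ E ≤ (W.card : ℝ) ^ E * (2 ^ r0) ^ E := by
      rw [← Real.mul_rpow (Nat.cast_nonneg _) (by positivity)]
      exact Real.rpow_le_rpow (Nat.cast_nonneg _) hcdR hexp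
    have hp2 : (0 : ℝ) < (2 ^ r0) ^ E := by positivity
    have h5 : c4 * ((cube A h).card : ℝ) ^ E ≤ (min 1 c3) ^ (k' + 1) / 2 * (W.card : ℝ) ^ E := by
      rw [hc4, div_mul_eq_mul_div, div_le_iff₀ hp2]
      have : 0 ≤ (min 1 c3) ^ (k' + 1) / 2 := by
        have : 0 < min 1 c3 := lt_min one_pos hc3p
        positivity
      have := mul_le_mul_of_nonneg_left h4 this
      linarith
    have h6 : min c2 c4 * ((cube A h).card : ℝ) ^ E ≤ c4 * ((cube A h).card : ℝ) ^ E :=
      mul_le_mul_of_nonneg_right (min_le_right _ _) (by positivity)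
    linarith

/-- **Cubes with rational steps, multiplied by arbitrary sets.** -/
theorem final (ε : ℝ) (hε : 0 < ε) (hε1 : ε ≤ 1) (K : ℕ) : ∃ n0 : ℕ, ∀ M : ℕ, M ≠ 0 →
    ∃ c : ℝ, 0 < c ∧ ∀ n : ℕ, n0 ≤ n → ∀ h : Fin n → ℚ,
      (∀ i j, i ≠ j → Nat.Coprime (h i).den (h j).den) →
      (∀ p : ℕ, p.Prime →
        (univ.filter fun i => (p : ℤ) ^ (M.factorization p + 1) ∣ (h i).num).card ≤ K) →
      ∀ A : Finset ℤ, A.Nonempty → ∀ B : Finset ℂ, (∃ b ∈ B, b ≠ 0) →
        c * (((cube A h).card : ℝ) * B.card) ^ (1 - ε) ≤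
          (((cube A h).image (fun q : ℚ => (q : ℂ)) * B).card : ℝ) := by
  obtain ⟨k, hk⟩ := exists_nat_ge (1 / ε)
  have hk0 : (0 : ℝ) < k := lt_of_lt_of_le (by positivity) hk
  have hk1 : 1 ≤ k := by
    have : 0 < k := by exact_mod_cast hk0
    exact this
  have hkε : 1 ≤ k * ε := by
    rw [div_le_iff₀ hε] at hk
    exact hk
  obtain ⟨n0, H⟩ := powers ε hε hε1 K k hk1
  refine ⟨n0, fun M hM => ?_⟩
  obtain ⟨c, hc, H1⟩ := H M hM
  refine ⟨min 1 c / 2, by have : 0 < min 1 c := lt_min one_pos hc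
                          positivity, ?_⟩
  intro n hn h hcop hK A hA B hB
  have h1 := H1 n hn h hcop hK A hA
  have hz : (1 : ℝ) ≤ (cube A h).card := by
    have : 0 < (cube A h).card := by
      obtain ⟨a, ha⟩ := hA
      exact card_pos.2 ⟨_, mem_cube.2 ⟨a, ha, ∅, rfl⟩⟩
    exact_mod_cast this
  have := of_pow hk1 hc hε1 hkε hz (by convert h1) B hB
  convert this

end Pool.Agent.Helper96.TS
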