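import Pool.Agent.Helper96.TS.Tup

/-!
# The entropy of the product of several independent elements of a cube
-/

set_option autoImplicit false

namespace Pool.Agent.Helper96.TS

open Finset Pool.Agent.Y359.PE Q137.Shifts Pool.Agent.Helper96.Rat
open scoped Pointwise

section L

variable {R : Finset ℕ} {g : ℕ → ℚ} (h2 : ∀ i ∈ R, 2 ≤ i) (hg : ∀ i ∈ R, (g i).den = i)
  (hR : (R : Set ℕ).Pairwise Nat.Coprime)

include h2 hg hR

/-- the entropy of the product of the denominators, given the product -/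
lemma K_bound (A : Finset (ℤ × Finset ℕ)) (hA : A.Nonempty)
    (hAR : ∀ a ∈ A, a.2 ⊆ R ∧ zz g a ≠ 0) (k : ℕ)
    {t τ : ℝ} (ht : 0 ≤ t) (ht1 : t ≤ 1) (hτ : k * τ ≤ t ^ 2) (m : ℕ)
    (hAp : ∀ p : ℕ, p.Prime → m ≤ p →
      ((A.filter fun a => (p : ℤ) ∣ (zz g a).num).card : ℝ) ≤ τ * A.card) :
    h (tp A k) (fun s => (pr (zz g) k s, pr (fun a => (zz g a).den) k s)) -
      h (tp A k) (pr (zz g) k) ≤
        (k + 1) * (R.card * (3 * t)) + (k + 1) * (m * Real.log 2) := by
  classical
  have hT := tp_nonempty hA k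
  have hall : ∀ s ∈ tp A k, All (fun a => a.2 ⊆ R) k s ∧ All (fun a => zz g a ≠ 0) k s :=
    fun s hs => ⟨all_of_mem (fun a ha => (hAR a ha).1) k s hs,
      all_of_mem (fun a ha => (hAR a ha).2) k s hs⟩
  have k1 : h (tp A k) (fun s => (pr (zz g) k s, pr (fun a => (zz g a).den) k s)) ≤
      h (tp A k) (fun s => (pr (zz g) k s, mk (R ×ˢ range (k + 1)) (er g k) s)) := by
    refine h_mono _ _ _ ?_
    intro s hs t' ht' hst
    rw [Prod.mk.injEq, mk_eq_iff] at hst
    rw [Prod.mk.injEq]
    exact ⟨hst.1, det h2 hg hR (hall s hs).1 (hall t' ht').1 (hall s hs).2 (hall t' ht').2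
      hst.1 hst.2⟩
  have k2 := h_pair_le (tp A k) (pr (zz g) k) (mk (R ×ˢ range (k + 1)) (er g k))
  have k3 := h_mk_le (tp A k) (R ×ˢ range (k + 1)) (er g k)
  have hbit : ∀ iv : ℕ × ℕ, ∀ s ∈ tp A k, er g k s iv = 0 ∨ er g k s iv = 1 := by
    intro i s _
    unfold er
    split_ifs
    · right; rfl
    · left; rfl
  set good := R.filter fun i => m ≤ Nat.minFac i with hgood
  set bad := R.filter fun i => ¬ m ≤ Nat.minFac i with hbad
  have hl2 : 0 ≤ Real.log 2 := Real.log_nonneg (by norm_num)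
  have k4 : ∑ iv ∈ R ×ˢ range (k + 1), h (tp A k) (fun a => er g k a iv) ≤
      ∑ v ∈ range (k + 1), (∑ i ∈ good, 3 * t + ∑ i ∈ bad, Real.log 2) := by
    rw [sum_product_right]
    refine sum_le_sum fun v _ => ?_
    rw [← sum_filter_add_sum_filter_not R (fun i => m ≤ Nat.minFac i)]
    refine add_le_add (sum_le_sum fun i hi => ?_) (sum_le_sum fun i _ => h_bit _ hT _ (hbit (i, v)))
    rw [mem_filter] at hi
    refine h_bin _ hT _ (hbit (i, v)) ht ht1 ?_
    have hi2 := h2 i hi.1
    have hp : (Nat.minFac i).Prime := Nat.minFac_prime (by omega)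
    have h3 := cnt_dvd A (fun a => (zz g a).num) hp (hAp _ hp hi.2) k
    have h4 : (((tp A k).filter fun s => er g k s (i, v) ≠ 0).card : ℝ) ≤
        ((tp A k).filter fun s => ((Nat.minFac i : ℕ) : ℤ) ∣ pr (fun a => (zz g a).num) k s).card := by
      rw [Nat.cast_le]
      refine card_le_card fun s hs => ?_
      rw [mem_filter] at hs ⊢
      refine ⟨hs.1, ?_⟩
      by_contra hcon
      refine hs.2 ?_
      unfold er
      rw [if_neg fun h => hcon h.1]
    exact h4.trans (h3.trans (mul_le_mul_of_nonneg_right hτ (Nat.cast_nonneg _)))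
  have hc : bad.card ≤ m := by
    have : bad.card ≤ (range m).card := by
      refine card_le_card_of_injOn Nat.minFac ?_ ?_
      · intro i hi
        rw [mem_coe, hbad, mem_filter] at hi
        rw [mem_coe, mem_range]
        omega
      · intro i hi j hj hij
        rw [mem_coe, hbad, mem_filter] at hi hj
        by_contra hne
        have hc := hR hi.1 hj.1 hne
        have hi2 := h2 i hi.1
        have hp : (Nat.minFac i).Prime := Nat.minFac_prime (by omega)
        have h7 := Nat.dvd_gcd (Nat.minFac_dvd i) (hij ▸ Nat.minFac_dvd j)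
        rw [hc.gcd_eq_one] at h7
        exact hp.one_lt.ne' (Nat.dvd_one.1 h7)
    rwa [card_range] at this
  have hcR : (bad.card : ℝ) ≤ m := by exact_mod_cast hc
  have hgR : (good.card : ℝ) ≤ R.card := by exact_mod_cast card_le_card (filter_subset _ _)
  have k5 : ∑ v ∈ range (k + 1), (∑ i ∈ good, 3 * t + ∑ i ∈ bad, Real.log 2) ≤
      (k + 1) * (R.card * (3 * t)) + (k + 1) * (m * Real.log 2) := by
    rw [sum_const, sum_const, sum_const, nsmul_eq_mul, nsmul_eq_mul, nsmul_eq_mul, card_range]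
    push_cast
    rw [← mul_add]
    refine mul_le_mul_of_nonneg_left (add_le_add ?_ ?_) (by positivity)
    · exact mul_le_mul_of_nonneg_right hgR (by positivity)
    · exact mul_le_mul_of_nonneg_right hcR hl2
  linarith

/-- the entropy of the product is at least that of the numerators, up to a small error -/
lemma K_low (A : Finset (ℤ × Finset ℕ)) (hA : A.Nonempty)
    (hAR : ∀ a ∈ A, a.2 ⊆ R ∧ zz g a ≠ 0) (k : ℕ)
    {t τ : ℝ} (ht : 0 ≤ t) (ht1 : t ≤ 1) (hτ : k * τ ≤ t ^ 2) (m : ℕ)
    (hAp : ∀ p : ℕ, p.Prime → m ≤ p →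
      ((A.filter fun a => (p : ℤ) ∣ (zz g a).num).card : ℝ) ≤ τ * A.card) :
    h (tp A k) (pr (fun a => (zz g a).num) k) -
      ((k + 1) * (R.card * (3 * t)) + (k + 1) * (m * Real.log 2)) ≤
      Real.log (((A.image (zz g)) ^ k).card) := by
  classical
  have h1 := K_bound h2 hg hR A hA hAR k ht ht1 hτ m hAp
  have hT := tp_nonempty hA k
  have h3 : h (tp A k) (pr (fun a => (zz g a).num) k) ≤
      h (tp A k) (fun s => (pr (zz g) k s, pr (fun a => (zz g a).den) k s)) := by
    refine h_mono _ _ _ ?_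
    intro s _ t' _ hst
    rw [Prod.mk.injEq] at hst
    have e1 := pr_num (g := g) k s
    have e2 := pr_num (g := g) k t'
    rw [hst.1, hst.2, e2] at e1
    exact_mod_cast e1.symm
  have h4 := h_le_card hT (pr (zz g) k) ((A.image (zz g)) ^ k) fun s hs => pr_mem (zz g) k s hs
  linarith

end L

/-- the entropy of the numerator on a set of pairs with typical second entries -/
lemma num_low {R : Finset ℕ} {g : ℕ → ℚ} (h2 : ∀ i ∈ R, 2 ≤ i) (hg : ∀ i ∈ R, (g i).den = i)
    (hR : (R : Set ℕ).Pairwise Nat.Coprime) {𝒯 : Finset (Finset ℕ)} {D : ℝ} (hD : 0 ≤ D)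
    (h𝒯 : 𝒯 ⊆ R.powerset)
    (hF : ∀ C ⊆ 𝒯, (∀ T ∈ C, ∀ V ∈ C, T ≠ V → Compat T V) → (C.card : ℝ) ≤ Real.exp D)
    (A : Finset (ℤ × Finset ℕ)) (hA : A.Nonempty) (hA𝒯 : ∀ a ∈ A, a.2 ∈ 𝒯) :
    Real.log A.card - D ≤ h A (fun a => (zz g a).num) := by
  classical
  have hc : (0 : ℝ) < A.card := by exact_mod_cast card_pos.2 hA
  have hsub : ∀ a ∈ A, a.2 ⊆ R := fun a ha => mem_powerset.1 (h𝒯 (hA𝒯 a ha))
  unfold h
  rw [le_div_iff₀ hc]
  have key : ∀ x ∈ A, Real.log A.card - D ≤
      Real.log A.card - Real.log (fc A (fun a => (zz g a).num) x) := by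
    intro x hx
    have h3 : (fc A (fun a => (zz g a).num) x : ℝ) ≤ Real.exp D := by
      have h4 : fc A (fun a => (zz g a).num) x =
          ((cl A (fun a => (zz g a).num) x).image Prod.snd).card := by
        unfold fc
        rw [card_image_of_injOn]
        intro a ha b hb hab
        have ha' := mem_cl.1 (mem_coe.1 ha)
        have hb' := mem_cl.1 (mem_coe.1 hb)
        have hab' : a.2 = b.2 := hab
        have hden : (zz g a).den = (zz g b).den := by
          rw [zz_den hg hR (hsub a ha'.1), zz_den hg hR (hsub b hb'.1), hab']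
        exact zz_inj h2 hg hR (hsub a ha'.1) (hsub b hb'.1)
          (_root_.Rat.ext (ha'.2.trans hb'.2.symm) hden)
      rw [h4]
      refine hF _ ?_ ?_
      · intro T hT
        obtain ⟨a, ha, rfl⟩ := mem_image.1 hT
        exact hA𝒯 a (mem_cl.1 ha).1
      · intro T hT V hV _
        obtain ⟨a, ha, rfl⟩ := mem_image.1 hT
        obtain ⟨b, hb, rfl⟩ := mem_image.1 hV
        have ha' := mem_cl.1 ha
        have hb' := mem_cl.1 hb
        unfold Compat
        rw [Nat.cast_prod (fun i => i) (a.2 ∩ b.2)]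
        refine Finset.prod_dvd_of_coprime ?_ ?_
        · intro i hi j hj hij
          rw [mem_coe, mem_inter] at hi hj
          exact Nat.isCoprime_iff_coprime.2 (hR (hsub a ha'.1 hi.1) (hsub a ha'.1 hj.1) hij)
        · intro i hi
          exact same_num h2 hg hR (hsub a ha'.1) (hsub b hb'.1) (ha'.2.trans hb'.2.symm) hi
    have h5 := fc_posR (f := fun a => (zz g a).num) hx
    have h6 := Real.log_le_log h5 h3
    rw [Real.log_exp] at h6
    linarith
  have h7 := sum_le_sum key
  rw [sum_const, nsmul_eq_mul] at h7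
  linarith

end Pool.Agent.Helper96.TS
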