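import Pool.Agent.Helper96.Rat.Big
import Pool.Agent.Helper96.TS.Fam

/-!
# Products of several independent elements of a cube
-/

set_option autoImplicit false

namespace Pool.Agent.Helper96.TS

open Finset Pool.Agent.Y359.PE Q137.Shifts Pool.Agent.Helper96.Rat
open scoped Pointwise

/-- tuples -/
def Tup (α : Type) : ℕ → Type
  | 0 => Unit
  | k + 1 => α × Tup α k

/-- the tuples of elements of `A` -/
def tp {α : Type} (A : Finset α) : (k : ℕ) → Finset (Tup α k)
  | 0 => ({()} : Finset Unit)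
  | k + 1 => A ×ˢ tp A k

/-- the products -/
def pr {α M : Type} [Monoid M] (f : α → M) : (k : ℕ) → Tup α k → M
  | 0, _ => 1
  | k + 1, s => f s.1 * pr f k s.2

/-- all entries have the property `P` -/
def All {α : Type} (P : α → Prop) : (k : ℕ) → Tup α k → Prop
  | 0, _ => True
  | k + 1, s => P s.1 ∧ All P k s.2

variable {α : Type}

lemma mem_tp_succ {A : Finset α} {k : ℕ} {s : Tup α (k + 1)} :
    s ∈ tp A (k + 1) ↔ s.1 ∈ A ∧ s.2 ∈ tp A k :=
  mem_product (p := (s : α × Tup α k)) (s := A) (t := tp A k)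

lemma tp_nonempty {A : Finset α} (hA : A.Nonempty) : ∀ k, (tp A k).Nonempty
  | 0 => ⟨(), mem_singleton_self _⟩
  | k + 1 => hA.product (tp_nonempty hA k)

lemma card_tp (A : Finset α) : ∀ k, (tp A k).card = A.card ^ k
  | 0 => rfl
  | k + 1 => by
    show (A ×ˢ tp A k).card = _
    rw [card_product, card_tp A k, pow_succ, mul_comm]

lemma all_of_mem {A : Finset α} {P : α → Prop} (h : ∀ a ∈ A, P a) :
    ∀ k, ∀ s ∈ tp A k, All P k s
  | 0, _, _ => trivial
  | k + 1, s, hs => by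
    have hs' := mem_tp_succ.1 hs
    exact ⟨h _ hs'.1, all_of_mem h k _ hs'.2⟩

lemma pr_ne {M : Type} [MonoidWithZero M] [NoZeroDivisors M] [Nontrivial M] {f : α → M} :
    ∀ k, ∀ s : Tup α k, All (fun a => f a ≠ 0) k s → pr f k s ≠ 0
  | 0, _, _ => one_ne_zero
  | k + 1, _, h => mul_ne_zero h.1 (pr_ne k _ h.2)

lemma pr_mem {M : Type} [CommMonoid M] [DecidableEq M] {A : Finset α} (f : α → M) :
    ∀ k, ∀ s ∈ tp A k, pr f k s ∈ (A.image f) ^ k
  | 0, _, _ => by
    rw [pow_zero]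
    exact mem_one.2 rfl
  | k + 1, s, hs => by
    have hs' := mem_tp_succ.1 hs
    rw [pow_succ']
    exact mul_mem_mul (mem_image_of_mem _ hs'.1) (pr_mem f k _ hs'.2)

/-- the entropy of the product of `k` independent copies -/
theorem ent_pr {Q : ℕ} (hQ : Q ≠ 0) (A : Finset α) (hA : A.Nonempty) (n : α → ℤ)
    (h0 : ∀ a ∈ A, n a ≠ 0) {τ θ : ℝ} (hτ : 0 ≤ τ) (hθ : 0 < θ) (hθ1 : θ ≤ 1 / 9)
    (hκ : 4 / Real.log (1 / θ) + τ / θ ≤ 1)
    (hp : ∀ p : ℕ, p.Prime → ((A.filter fun a => Q.factorization p < fa (n a) p).card : ℝ) ≤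
      τ * A.card) : ∀ k : ℕ,
    k * (1 - k * (4 / Real.log (1 / θ) + τ / θ)) * h A n - 2 * k * Real.log (2 * Q.divisors.card) ≤
      h (tp A k) (pr n k)
  | 0 => by
    simp only [Nat.cast_zero, zero_mul, mul_zero, sub_zero]
    exact h_nonneg _ _
  | k + 1 => by
    have ih := ent_pr hQ A hA n h0 hτ hθ hθ1 hκ hp k
    have h1 := prods hQ A (tp A k) hA (tp_nonempty hA k) n (pr n k) h0
      (fun b hb => pr_ne k b (all_of_mem h0 k b hb)) hτ hθ hθ1 hκ hp
    have h2 : h (A ×ˢ tp A k) (fun s => n s.1 * pr n k s.2) = h (tp A (k + 1)) (pr n (k + 1)) := rfl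
    rw [h2] at h1
    refine le_trans ?_ h1
    have hθl : 0 ≤ Real.log (1 / θ) := Real.log_nonneg (by rw [le_div_iff₀ hθ]; linarith)
    set κ := 4 / Real.log (1 / θ) + τ / θ with hκd
    have hκ0 : 0 ≤ κ := by positivity
    have e1 : 1 - 4 / Real.log (1 / θ) - τ / θ = 1 - κ := by rw [hκd]; ring
    rw [e1]
    have hL : 0 ≤ Real.log (2 * Q.divisors.card) := by
      have : 0 < Q.divisors.card := card_pos.2 ⟨1, Nat.one_mem_divisors.2 hQ⟩
      have : (1 : ℝ) ≤ Q.divisors.card := by exact_mod_cast this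
      exact Real.log_nonneg (by linarith)
    have hH : 0 ≤ h A n := h_nonneg _ _
    have hk : (0 : ℝ) ≤ k := Nat.cast_nonneg k
    set L := Real.log (2 * Q.divisors.card)
    set H := h A n
    have h3 : (1 - κ) * (H + (k * (1 - k * κ) * H - 2 * k * L) - 2 * L) ≤
        (1 - κ) * (H + h (tp A k) (pr n k) - 2 * L) :=
      mul_le_mul_of_nonneg_left (by linarith) (by linarith)
    refine le_trans ?_ h3
    push_cast
    have h4 : (1 - κ) * (H + (k * (1 - k * κ) * H - 2 * k * L) - 2 * L) -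
        ((k + 1) * (1 - (k + 1) * κ) * H - 2 * (k + 1) * L) =
        (κ * k + κ ^ 2 * k ^ 2) * H + 2 * (k + 1) * κ * L := by ring
    have h5 : 0 ≤ (κ * k + κ ^ 2 * k ^ 2) * H + 2 * (k + 1) * κ * L := by positivity
    linarith

/-- the number of sets containing `i` -/
def dg (i : ℕ) : (k : ℕ) → Tup (ℤ × Finset ℕ) k → ℕ
  | 0, _ => 0
  | k + 1, s => (if i ∈ s.1.2 then 1 else 0) + dg i k s.2

lemma dg_le (i : ℕ) : ∀ k s, dg i k s ≤ k
  | 0, _ => le_rfl
  | k + 1, s => by
    have := dg_le i k s.2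
    show (if i ∈ s.1.2 then 1 else 0) + dg i k s.2 ≤ k + 1
    split_ifs <;> omega

section den

variable {R : Finset ℕ} {g : ℕ → ℚ} (h2 : ∀ i ∈ R, 2 ≤ i) (hg : ∀ i ∈ R, (g i).den = i)
  (hR : (R : Set ℕ).Pairwise Nat.Coprime)

include hg hR in
lemma pr_den : ∀ k, ∀ s : Tup (ℤ × Finset ℕ) k, All (fun a => a.2 ⊆ R) k s →
    pr (fun a => (zz g a).den) k s = ∏ i ∈ R, i ^ dg i k s
  | 0, _, _ => by
    show 1 = ∏ i ∈ R, i ^ 0
    simp
  | k + 1, s, h => by
    show (zz g s.1).den * pr (fun a => (zz g a).den) k s.2 =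
      ∏ i ∈ R, i ^ ((if i ∈ s.1.2 then 1 else 0) + dg i k s.2)
    rw [pr_den k s.2 h.2, zz_den hg hR h.1]
    have key : ∏ i ∈ s.1.2, i = ∏ i ∈ R, i ^ (if i ∈ s.1.2 then 1 else 0) := by
      rw [← prod_subset h.1 fun i _ hi => by rw [if_neg hi, pow_zero]]
      exact prod_congr rfl fun i hi => by rw [if_pos hi, pow_one]
    rw [key, ← prod_mul_distrib]
    exact prod_congr rfl fun i _ => (pow_add _ _ _).symm

lemma pr_num : ∀ k, ∀ s : Tup (ℤ × Finset ℕ) k,
    pr (zz g) k s * ((pr (fun a => (zz g a).den) k s : ℕ) : ℚ) =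
      ((pr (fun a => (zz g a).num) k s : ℤ) : ℚ)
  | 0, _ => by
    show (1 : ℚ) * ((1 : ℕ) : ℚ) = ((1 : ℤ) : ℚ)
    simp
  | k + 1, s => by
    show (zz g s.1 * pr (zz g) k s.2) * (((zz g s.1).den * pr (fun a => (zz g a).den) k s.2 : ℕ) : ℚ) =
      (((zz g s.1).num * pr (fun a => (zz g a).num) k s.2 : ℤ) : ℚ)
    have h1 := pr_num k s.2
    have h2 := _root_.Rat.mul_den_eq_num (zz g s.1)
    push_cast
    rw [← h1, ← h2]
    ring

include h2 hR in
lemma val_prod {i : ℕ} (hi : i ∈ R) (e : ℕ → ℕ) :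
    padicValNat (Nat.minFac i) (∏ j ∈ R, j ^ e j) =
      e i * i.factorization (Nat.minFac i) := by
  have hi2 := h2 i hi
  have hp : (Nat.minFac i).Prime := Nat.minFac_prime (by omega)
  have : Fact (Nat.minFac i).Prime := ⟨hp⟩
  have hne : ∀ j ∈ R, j ^ e j ≠ 0 := fun j hj => pow_ne_zero _ (by have := h2 j hj; omega)
  rw [← Nat.factorization_def _ hp, Nat.factorization_prod hne, Finset.sum_apply']
  rw [sum_eq_single i]
  · rw [Nat.factorization_pow, Finsupp.smul_apply, smul_eq_mul]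
  · intro j hj hji
    rw [Nat.factorization_pow, Finsupp.smul_apply, smul_eq_mul,
      Nat.factorization_eq_zero_of_not_dvd, mul_zero]
    intro hd
    have hc : Nat.Coprime j i := hR hj hi hji
    have := Nat.dvd_gcd hd (Nat.minFac_dvd i)
    rw [hc.gcd_eq_one] at this
    exact hp.one_lt.ne' (Nat.dvd_one.1 this)
  · exact fun h => absurd hi h

/-- the errors -/
noncomputable def er (g : ℕ → ℚ) (k : ℕ) (s : Tup (ℤ × Finset ℕ) k) (iv : ℕ × ℕ) : ℤ :=
  if ((Nat.minFac iv.1 : ℕ) : ℤ) ∣ pr (fun a => (zz g a).num) k s ∧ dg iv.1 k s = iv.2 then 1 else 0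

include h2 hg hR in
lemma val_c {k : ℕ} {s : Tup (ℤ × Finset ℕ) k} (hs : All (fun a => a.2 ⊆ R) k s)
    (hz : All (fun a => zz g a ≠ 0) k s) {i : ℕ} (hi : i ∈ R)
    (hd : ¬ ((Nat.minFac i : ℕ) : ℤ) ∣ pr (fun a => (zz g a).num) k s) :
    padicValRat (Nat.minFac i) (pr (zz g) k s) =
      -((dg i k s * i.factorization (Nat.minFac i) : ℕ) : ℤ) := by
  have hi2 := h2 i hi
  have hp : (Nat.minFac i).Prime := Nat.minFac_prime (by omega)
  have : Fact (Nat.minFac i).Prime := ⟨hp⟩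
  have h1 := pr_num (g := g) k s
  have hc : pr (zz g) k s ≠ 0 := pr_ne k s hz
  have hD := pr_den hg hR k s hs
  have hDpos : pr (fun a => (zz g a).den) k s ≠ 0 := by
    rw [hD]
    exact prod_ne_zero_iff.2 fun j hj => pow_ne_zero _ (by have := h2 j hj; omega)
  have h3 := congrArg (padicValRat (Nat.minFac i)) h1
  rw [padicValRat.mul hc (by exact_mod_cast hDpos), padicValRat.of_nat, padicValRat.of_int,
    padicValInt.eq_zero_of_not_dvd hd, hD, val_prod h2 hR hi] at h3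
  push_cast at h3 ⊢
  linarith

include h2 hg hR in
lemma det {k : ℕ} {s t : Tup (ℤ × Finset ℕ) k} (hs : All (fun a => a.2 ⊆ R) k s)
    (ht : All (fun a => a.2 ⊆ R) k t) (hzs : All (fun a => zz g a ≠ 0) k s)
    (hzt : All (fun a => zz g a ≠ 0) k t) (hc : pr (zz g) k s = pr (zz g) k t)
    (he : ∀ iv ∈ R ×ˢ range (k + 1), er g k s iv = er g k t iv) :
    pr (fun a => (zz g a).den) k s = pr (fun a => (zz g a).den) k t := by
  rw [pr_den hg hR k s hs, pr_den hg hR k t ht]
  refine prod_congr rfl fun i hi => ?_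
  congr 1
  have key : ∀ s t : Tup (ℤ × Finset ℕ) k, (∀ iv ∈ R ×ˢ range (k + 1), er g k s iv = er g k t iv) →
      ((Nat.minFac i : ℕ) : ℤ) ∣ pr (fun a => (zz g a).num) k s → dg i k s = dg i k t := by
    intro s t he hd
    have h1 := he (i, dg i k s) (mem_product.2 ⟨hi, mem_range.2 (by have := dg_le i k s; omega)⟩)
    unfold er at h1
    rw [if_pos ⟨hd, rfl⟩] at h1
    by_contra hne
    rw [if_neg fun h => hne h.2.symm] at h1
    exact one_ne_zero h1
  by_cases c1 : ((Nat.minFac i : ℕ) : ℤ) ∣ pr (fun a => (zz g a).num) k s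
  · exact key s t he c1
  by_cases c2 : ((Nat.minFac i : ℕ) : ℤ) ∣ pr (fun a => (zz g a).num) k t
  · exact (key t s (fun iv h => (he iv h).symm) c2).symm
  have h1 := val_c h2 hg hR hs hzs hi c1
  have h3 := val_c h2 hg hR ht hzt hi c2
  rw [hc, h3] at h1
  have hi2 := h2 i hi
  have he1 : 0 < i.factorization (Nat.minFac i) :=
    (Nat.minFac_prime (by omega)).factorization_pos_of_dvd (by omega) (Nat.minFac_dvd i)
  have h4 : dg i k t * i.factorization (Nat.minFac i) = dg i k s * i.factorization (Nat.minFac i) := by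
    exact_mod_cast neg_injective h1
  exact (Nat.eq_of_mul_eq_mul_right he1 h4).symm

end den

/-- a prime number rarely divides a product -/
lemma cnt_dvd (A : Finset α) (n : α → ℤ) {p : ℕ} (hp : p.Prime) {τ : ℝ}
    (h : ((A.filter fun a => (p : ℤ) ∣ n a).card : ℝ) ≤ τ * A.card) : ∀ k : ℕ,
    (((tp A k).filter fun s => (p : ℤ) ∣ pr n k s).card : ℝ) ≤ k * τ * (tp A k).card
  | 0 => by
    have : ((tp A 0).filter fun s => (p : ℤ) ∣ pr n 0 s) = ∅ := by
      rw [filter_eq_empty_iff]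
      intro s _ hd
      have h1 : (p : ℤ) ∣ 1 := hd
      have := Int.natCast_dvd_natCast.1 (by simpa using h1 : (p : ℤ) ∣ ((1 : ℕ) : ℤ))
      exact hp.one_lt.ne' (Nat.dvd_one.1 this)
    rw [this]
    simp
  | k + 1 => by
    classical
    have ih := cnt_dvd A n hp h k
    have hsub : ((A ×ˢ tp A k).filter fun s => (p : ℤ) ∣ n s.1 * pr n k s.2) ⊆
        (A.filter fun a => (p : ℤ) ∣ n a) ×ˢ tp A k ∪
          A ×ˢ ((tp A k).filter fun s => (p : ℤ) ∣ pr n k s) := by
      intro s hs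
      rw [mem_filter, mem_product] at hs
      rw [mem_union, mem_product, mem_product, mem_filter, mem_filter]
      rcases (Nat.prime_iff_prime_int.1 hp).dvd_or_dvd hs.2 with h1 | h1
      · exact Or.inl ⟨⟨hs.1.1, h1⟩, hs.1.2⟩
      · exact Or.inr ⟨hs.1.1, hs.1.2, h1⟩
    have h1 : (((A ×ˢ tp A k).filter fun s => (p : ℤ) ∣ n s.1 * pr n k s.2).card : ℝ) ≤
        (A.filter fun a => (p : ℤ) ∣ n a).card * (tp A k).card +
          A.card * ((tp A k).filter fun s => (p : ℤ) ∣ pr n k s).card := by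
      have h3 := (card_le_card hsub).trans (card_union_le _ _)
      rw [card_product, card_product] at h3
      exact_mod_cast h3
    have h4 : ((tp A (k + 1)).card : ℝ) = A.card * (tp A k).card := by
      have : (tp A (k + 1)).card = A.card * (tp A k).card := card_product _ _
      exact_mod_cast this
    have h5 : (((tp A (k + 1)).filter fun s => (p : ℤ) ∣ pr n (k + 1) s).card : ℝ) =
        (((A ×ˢ tp A k).filter fun s => (p : ℤ) ∣ n s.1 * pr n k s.2).card : ℝ) := rfl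
    rw [h5, h4]
    refine h1.trans ?_
    have h6 : (0 : ℝ) ≤ (tp A k).card := Nat.cast_nonneg _
    have h7 : (0 : ℝ) ≤ A.card := Nat.cast_nonneg _
    have h8 := mul_le_mul_of_nonneg_right h h6
    have h9 := mul_le_mul_of_nonneg_left ih h7
    push_cast
    linarith

end Pool.Agent.Helper96.TS
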