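import Mathlib

/-!
# Typical sets and families of compatible sets
-/

set_option autoImplicit false

namespace Pool.Agent.Helper96.TS

open Finset

/-- the sign of `i` in `T` -/
def sg (T : Finset ℕ) (i : ℕ) : ℝ := if i ∈ T then 1 else -1

lemma sg_sq (T : Finset ℕ) (i : ℕ) : sg T i * sg T i = 1 := by
  unfold sg
  split_ifs <;> norm_num

/-- the second moment of a random signed sum -/
lemma second (v : ℕ → ℝ) (P : Finset ℕ) : ∀ R : Finset ℕ,
    ∑ T ∈ R.powerset, (∑ i ∈ R ∩ P, v i * sg T i) ^ 2 =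
      2 ^ R.card * ∑ i ∈ R ∩ P, v i ^ 2 := by
  intro R
  induction R using Finset.induction_on with
  | empty => simp
  | insert a s ha ih =>
    rw [sum_powerset_insert ha]
    have e1 : ∀ T ∈ s.powerset, ∀ i ∈ s ∩ P, sg (insert a T) i = sg T i := by
      intro T _ i hi
      have hia : i ≠ a := fun h => ha (h ▸ (mem_inter.1 hi).1)
      unfold sg
      simp [mem_insert, hia]
    by_cases haP : a ∈ P
    · have e0 : insert a s ∩ P = insert a (s ∩ P) := by
        rw [insert_inter_of_mem haP]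
      have hna : a ∉ s ∩ P := fun h => ha (mem_inter.1 h).1
      rw [e0]
      have e2 : ∀ T ∈ s.powerset, (∑ i ∈ insert a (s ∩ P), v i * sg T i) ^ 2 +
          (∑ i ∈ insert a (s ∩ P), v i * sg (insert a T) i) ^ 2 =
          2 * (∑ i ∈ s ∩ P, v i * sg T i) ^ 2 + 2 * v a ^ 2 := by
        intro T hT
        rw [sum_insert hna, sum_insert hna,
          sum_congr rfl (fun i hi => by rw [e1 T hT i hi] :
            ∀ i ∈ s ∩ P, v i * sg (insert a T) i = v i * sg T i)]
        have h1 : sg T a = -1 := by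
          unfold sg
          rw [if_neg fun h => ha (mem_powerset.1 hT h)]
        have h2 : sg (insert a T) a = 1 := by
          unfold sg
          rw [if_pos (mem_insert_self _ _)]
        rw [h1, h2]
        ring
      rw [← sum_add_distrib, sum_congr rfl e2, sum_add_distrib, ← mul_sum, ih, sum_const,
        card_powerset, card_insert_of_notMem ha, sum_insert hna]
      rw [nsmul_eq_mul]
      push_cast
      ring
    · have e0 : insert a s ∩ P = s ∩ P := insert_inter_of_notMem haP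
      rw [e0]
      have e2 : ∀ T ∈ s.powerset, (∑ i ∈ s ∩ P, v i * sg (insert a T) i) ^ 2 =
          (∑ i ∈ s ∩ P, v i * sg T i) ^ 2 := by
        intro T hT
        rw [sum_congr rfl (fun i hi => by rw [e1 T hT i hi] :
            ∀ i ∈ s ∩ P, v i * sg (insert a T) i = v i * sg T i)]
      rw [sum_congr rfl e2, ih, card_insert_of_notMem ha]
      ring

/-- Chebyshev's inequality -/
lemma cheb (v : ℕ → ℝ) (R P : Finset ℕ) (hP : P ⊆ R) {l V : ℝ} (hl : 0 < l)
    (hV : ∑ i ∈ P, v i ^ 2 ≤ V) :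
    ((R.powerset.filter fun T => ¬ |∑ i ∈ P, v i * sg T i| ≤ l).card : ℝ) * l ^ 2 ≤
      2 ^ R.card * V := by
  have h1 := second v P R
  rw [inter_eq_right.2 hP] at h1
  have h2 : ∑ T ∈ R.powerset.filter (fun T => ¬ |∑ i ∈ P, v i * sg T i| ≤ l), l ^ 2 ≤
      ∑ T ∈ R.powerset, (∑ i ∈ P, v i * sg T i) ^ 2 := by
    refine le_trans (sum_le_sum fun T hT => ?_)
      (sum_le_sum_of_subset_of_nonneg (filter_subset _ _) fun _ _ _ => sq_nonneg _)
    have h3 := (mem_filter.1 hT).2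
    rw [not_le] at h3
    rw [← sq_abs (∑ i ∈ P, v i * sg T i)]
    exact pow_le_pow_left₀ hl.le h3.le 2
  rw [sum_const, nsmul_eq_mul, h1] at h2
  refine h2.trans ?_
  exact mul_le_mul_of_nonneg_left hV (by positivity)

/-- the sets with the largest elements -/
lemma exists_top (R : Finset ℕ) : ∀ m ≤ R.card, ∃ P ⊆ R, P.card = m ∧
    ∀ i ∈ R \ P, ∀ j ∈ P, i ≤ j := by
  intro m
  induction m with
  | zero => exact fun _ => ⟨∅, empty_subset _, rfl, by simp⟩
  | succ m ih =>
    intro hm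
    obtain ⟨P, hP, hPc, h⟩ := ih (by omega)
    have hne : (R \ P).Nonempty := by
      rw [← card_pos, card_sdiff_of_subset hP]
      omega
    obtain ⟨a, ha, hmax⟩ := exists_max_image (R \ P) (fun i => i) hne
    have haP : a ∉ P := (mem_sdiff.1 ha).2
    refine ⟨insert a P, insert_subset (mem_sdiff.1 ha).1 hP, by
      rw [card_insert_of_notMem haP, hPc], ?_⟩
    intro i hi j hj
    rw [mem_sdiff, mem_insert, not_or] at hi
    rcases mem_insert.1 hj with rfl | hj
    · exact hmax i (mem_sdiff.2 ⟨hi.1, hi.2.2⟩)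
    · exact h i (mem_sdiff.2 ⟨hi.1, hi.2.2⟩) j hj

/-- few vectors have pairwise negative inner products -/
lemma rankin {w : ℕ → ℝ} {S : Finset ℕ} {C : Finset (Finset ℕ)} {W b : ℝ}
    (hw : ∀ i ∈ S, 0 ≤ w i) (hW : ∑ i ∈ S, w i ≤ W) (hb : 0 < b)
    (hp : ∀ T ∈ C, ∀ V ∈ C, T ≠ V → ∑ i ∈ S, w i * (sg T i * sg V i) ≤ -b) :
    (C.card : ℝ) ≤ 1 + W / b := by
  rcases C.eq_empty_or_nonempty with h0 | hne
  · rw [h0, card_empty, Nat.cast_zero]
    have : 0 ≤ W := le_trans (sum_nonneg hw) hW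
    positivity
  have hN : (1 : ℝ) ≤ C.card := by exact_mod_cast card_pos.2 hne
  have h1 : 0 ≤ ∑ i ∈ S, w i * (∑ T ∈ C, sg T i) ^ 2 :=
    sum_nonneg fun i hi => mul_nonneg (hw i hi) (sq_nonneg _)
  have h2 : ∑ i ∈ S, w i * (∑ T ∈ C, sg T i) ^ 2 =
      ∑ T ∈ C, ∑ V ∈ C, ∑ i ∈ S, w i * (sg T i * sg V i) := by
    rw [sum_congr rfl (fun i _ => by rw [sq, sum_mul_sum, mul_sum] :
      ∀ i ∈ S, w i * (∑ T ∈ C, sg T i) ^ 2 = ∑ T ∈ C, w i * ∑ V ∈ C, sg T i * sg V i)]
    rw [sum_comm]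
    refine sum_congr rfl fun T _ => ?_
    rw [sum_congr rfl (fun i _ => by rw [mul_sum] :
      ∀ i ∈ S, w i * ∑ V ∈ C, sg T i * sg V i = ∑ V ∈ C, w i * (sg T i * sg V i))]
    rw [sum_comm]
  have h3 : ∀ T ∈ C, ∑ V ∈ C, ∑ i ∈ S, w i * (sg T i * sg V i) ≤ W - (C.card - 1) * b := by
    intro T hT
    rw [← add_sum_erase C _ hT]
    have e1 : ∑ i ∈ S, w i * (sg T i * sg T i) ≤ W := by
      rw [sum_congr rfl (fun i _ => by rw [sg_sq, mul_one] :
        ∀ i ∈ S, w i * (sg T i * sg T i) = w i)]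
      exact hW
    have e2 : ∑ V ∈ C.erase T, ∑ i ∈ S, w i * (sg T i * sg V i) ≤ ∑ V ∈ C.erase T, -b :=
      sum_le_sum fun V hV => hp T hT V (mem_of_mem_erase hV) (ne_of_mem_erase hV).symm
    rw [sum_const, card_erase_of_mem hT, nsmul_eq_mul, Nat.cast_sub (card_pos.2 hne)] at e2
    push_cast at e2
    linarith
  have h4 := sum_le_sum h3
  rw [sum_const, nsmul_eq_mul, ← h2] at h4
  have h5 : 0 ≤ W - (C.card - 1) * b := by
    by_contra hcon
    rw [not_le] at hcon
    have : (C.card : ℝ) * (W - (C.card - 1) * b) < 0 :=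
      mul_neg_of_pos_of_neg (by linarith) hcon
    linarith
  have h6 : ((C.card : ℝ) - 1) ≤ W / b := by
    rw [le_div_iff₀ hb]
    linarith
  linarith

end Pool.Agent.Helper96.TS
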